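import Pool.Agent.Lib.HQ.Defs

/-!
# The explicit function satisfies the recursion block by block
-/

set_option autoImplicit false

namespace Pool.Agent.Lib.HQ

theorem W_lt (δ : ℕ → ℕ → ℕ) (q : List ℕ) (k : ℕ) (h : k < q.length) : W δ q k = q.getD k 0 := by
  rw [W, if_pos (Or.inl h)]

theorem W_even (δ : ℕ → ℕ → ℕ) (q : List ℕ) (hq : 1 ≤ q.length) (k : ℕ) (h : q.length ≤ k)
    (h2 : (k - q.length) % 2 = 0) :
    W δ q k = δ (W δ q (k - 1)) (W δ q ((k - q.length) / 2)) := by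
  rw [W, if_neg (by omega), if_pos h2]

theorem W_odd (δ : ℕ → ℕ → ℕ) (q : List ℕ) (hq : 1 ≤ q.length) (k : ℕ) (h : q.length ≤ k)
    (h2 : (k - q.length) % 2 ≠ 0) :
    W δ q k = δ (W δ q (k - 1)) 0 := by
  rw [W, if_neg (by omega), if_neg h2]

theorem W_bd {L : ℕ} (hL : 1 ≤ L) (δ : ℕ → ℕ → ℕ) (hδ : ∀ i j, δ i j < L) (q : List ℕ)
    (hq : ∀ x ∈ q, x < L) (k : ℕ) : W δ q k < L := by
  rw [W]
  split_ifs with h1 h2
  · by_cases h : k < q.length
    · rw [List.getD_eq_getElem _ _ h]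
      exact hq _ (List.getElem_mem h)
    · rw [List.getD_eq_default _ _ (by omega)]
      omega
  · exact hδ _ _
  · exact hδ _ _

theorem YY_bd {L : ℕ} (hL : 1 ≤ L) (δ : ℕ → ℕ → ℕ) (hδ : ∀ i j, δ i j < L) (q : List ℕ)
    (hq : ∀ x ∈ q, x < L) (σ : ℕ) : YY L δ q σ < L := by
  unfold YY
  split_ifs
  · omega
  · exact W_bd hL δ hδ q hq _

theorem ZZ_bd {L : ℕ} (hL : 1 ≤ L) (δ : ℕ → ℕ → ℕ) (hδ : ∀ i j, δ i j < L) (q : List ℕ)
    (hq : ∀ x ∈ q, x < L) (σ : ℕ) : ZZ L δ q σ < L := by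
  unfold ZZ
  split_ifs
  · exact W_bd hL δ hδ q hq _
  · omega

/-- the new letter -/
theorem YY_new {L : ℕ} (δ : ℕ → ℕ → ℕ) (q : List ℕ) (hq1 : 1 ≤ q.length) (σ : ℕ)
    (h : 2 * L + q.length ≤ σ) : YY L δ q σ = δ (YY L δ q (σ - 1)) (ZZ L δ q σ) := by
  have e1 : YY L δ q σ = W δ q (σ - 2 * L) := by
    unfold YY
    rw [if_neg (by omega)]
  have e2 : YY L δ q (σ - 1) = W δ q (σ - 2 * L - 1) := by
    unfold YY
    rw [if_neg (by omega)]
    congr 1
    omega
  rw [e1, e2]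
  unfold ZZ
  have e3 : σ - (2 * L + q.length) = σ - 2 * L - q.length := by omega
  rw [e3]
  split_ifs with h2
  · exact W_even δ q hq1 _ (by omega) h2
  · exact W_odd δ q hq1 _ (by omega) h2

section

variable {L m : ℕ} {δ : ℕ → ℕ → ℕ} {u q : List ℕ}

theorem FF_blk (σ r : ℕ) (hσ : L ≤ σ) (hr : r < 20) :
    FF L m δ u q (20 * (aa L m + σ) + r) = blk L δ q σ r := by
  have hm : L * (m + 2) ≤ aa L m + L := by
    unfold aa
    have : L * (m + 2) ≤ L * (L + 1 + m) + L := by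
      rcases Nat.eq_zero_or_pos L with h | h
      · subst h; simp
      · have : L * (m + 2) ≤ L * (L + 1 + m) := Nat.mul_le_mul_left _ (by omega)
        omega
    exact this
  unfold FF
  have e1 : (20 * (aa L m + σ) + r) / 20 = aa L m + σ := by omega
  have e2 : (20 * (aa L m + σ) + r) % 20 = r := by omega
  rw [e1, e2, if_neg (by omega), if_neg (by omega), Nat.add_sub_cancel_left]

theorem FF_tab (s r : ℕ) (h1 : L * (m + 2) ≤ s) (h2 : s < aa L m + L) (hr : r < 20) :
    FF L m δ u q (20 * s + r) = tab L m δ s r := by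
  unfold FF
  have e1 : (20 * s + r) / 20 = s := by omega
  have e2 : (20 * s + r) % 20 = r := by omega
  rw [e1, e2, if_neg (by omega), if_pos h2]

theorem step_of {F : ℕ → ℕ} {n x y p1 p2 v1 v2 v : ℕ} (h1 : F (n - 1) = x) (h2 : F (n - 2) = y)
    (e1 : n - x = p1) (e2 : n - y = p2) (f1 : F p1 = v1) (f2 : F p2 = v2) (hv : v1 + v2 = v) :
    F (n - F (n - 1)) + F (n - F (n - 2)) = v := by
  rw [h1, h2, e1, e2, f1, f2, hv]

/-- the right side of the recursion at the cell number `r` of a computed block -/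
theorem rhs_blk (hL : 3 ≤ L) (hδ : ∀ i j, δ i j < L) (hq : ∀ x ∈ q, x < L) (hq1 : 1 ≤ q.length)
    (σ r : ℕ) (hσ : 2 * L + q.length ≤ σ) (hr : r < 20) (n : ℕ) (hn : n = 20 * (aa L m + σ) + r) :
    FF L m δ u q (n - FF L m δ u q (n - 1)) + FF L m δ u q (n - FF L m δ u q (n - 2)) =
      if r = 15 ∧ YY L δ q σ = L - 1 then 20 * (aa L m + σ) + 16 else blk L δ q σ r := by
  have hy := YY_bd (by omega : 1 ≤ L) δ hδ q hq σ
  have hx := YY_bd (by omega : 1 ≤ L) δ hδ q hq (σ - 1)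
  have hz := ZZ_bd (by omega : 1 ≤ L) δ hδ q hq σ
  have hnew := YY_new (L := L) δ q hq1 σ hσ
  have hA : aa L m = L * (L + 1 + m) := rfl
  have hA2 : L * (m + 2) + L ≤ aa L m + 1 := by
    rw [hA]
    nlinarith
  have hA3 : L * (m + 2) + 1 ≤ aa L m := by
    rw [hA]
    nlinarith
  obtain ⟨a, ha⟩ : ∃ a, a = aa L m := ⟨_, rfl⟩
  have B : ∀ (σ' r' p v : ℕ), p = 20 * (a + σ') + r' → L ≤ σ' → r' < 20 → blk L δ q σ' r' = v →
      FF L m δ u q p = v := by
    intro σ' r' p v hp h1 h2 h3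
    rw [hp, ha, FF_blk σ' r' h1 h2, h3]
  have T : ∀ (s r' p v : ℕ), p = 20 * s + r' → L * (m + 2) ≤ s → s < a + L → r' < 20 →
      tab L m δ s r' = v → FF L m δ u q p = v := by
    intro s r' p v hp h1 h2 h3 h4
    rw [hp, FF_tab s r' h1 (by omega) h3, h4]
  rw [← ha] at hA2 hA3 hn ⊢
  -- values of the special cells
  have b6 : ∀ σ', 2 * L + q.length ≤ σ' + 1 →
      blk L δ q σ' 6 = 10 * (σ' + 1 - (2 * L + q.length)) + (20 * q.length - 13) := by
    intro σ' h
    show (if σ' + 1 < 2 * L + q.length then 1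
      else 10 * (σ' + 1 - (2 * L + q.length)) + (20 * q.length - 13)) = _
    rw [if_neg (by omega)]
  have b8 : blk L δ q σ 8 = 20 * σ + 33 + 20 * ZZ L δ q σ := by
    show (if σ < 2 * L + q.length then 1 else 20 * σ + 33 + 20 * ZZ L δ q σ) = _
    rw [if_neg (by omega)]
  have b9 : blk L δ q σ 9 = 20 * σ + 20 * (L * ZZ L δ q σ) - 20 * YY L δ q (σ - 1) := by
    show (if σ < 2 * L + q.length then 1
      else 20 * σ + 20 * (L * ZZ L δ q σ) - 20 * YY L δ q (σ - 1)) = _
    rw [if_neg (by omega)]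
  have t5 : ∀ s, s ≠ a + (L - 1) → tab L m δ s 5 = 20 := by
    intro s h
    show (if s = aa L m + (L - 1) then 20 * aa L m + 32 else 20) = 20
    rw [if_neg (by omega)]
  obtain ⟨z, hzz⟩ : ∃ z, z = ZZ L δ q σ := ⟨_, rfl⟩
  obtain ⟨x, hxx⟩ : ∃ x, x = YY L δ q (σ - 1) := ⟨_, rfl⟩
  obtain ⟨y, hyy⟩ : ∃ y, y = YY L δ q σ := ⟨_, rfl⟩
  rw [← hzz] at b8 b9 hz hnew
  rw [← hxx] at b9 hx hnew
  rw [← hyy] at hy hnew ⊢
  -- the block read by the moving pointer
  have hZ : (z = 0 ∧ ∃ k, σ - (2 * L + q.length) = 2 * k + 1) ∨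
      (∃ k, σ - (2 * L + q.length) = 2 * k ∧ z = YY L δ q (2 * L + k)) := by
    rcases Nat.even_or_odd' (σ - (2 * L + q.length)) with ⟨k, hk | hk⟩
    · right
      refine ⟨k, hk, ?_⟩
      rw [hzz]
      unfold ZZ YY
      rw [if_pos (by omega), if_neg (by omega)]
      congr 1
      omega
    · left
      refine ⟨?_, k, hk⟩
      rw [hzz]
      unfold ZZ
      rw [if_neg (by omega)]
  have hR : ∃ b, b = 20 * (a + σ) + 7 -
        (10 * (σ + 1 - (2 * L + q.length)) + (20 * q.length - 13)) ∧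
      10 * (σ + 1 - (2 * L + q.length)) + (20 * q.length - 13) < 20 * (a + σ) + 7 ∧
      FF L m δ u q b = 7 ∧ FF L m δ u q (b + 1) = 28 + 20 * z := by
    refine ⟨_, rfl, by omega, ?_⟩
    rcases hZ with ⟨h0, k, hk⟩ | ⟨k, hk, hk2⟩
    · have e : 20 * (a + σ) + 7 - (10 * (σ + 1 - (2 * L + q.length)) + (20 * q.length - 13)) =
          20 * (a + (2 * L + k + 1)) + 0 := by omega
      rw [e, h0]
      exact ⟨B _ 0 _ _ rfl (by omega) (by norm_num) rfl,
        B _ 1 _ _ rfl (by omega) (by norm_num) rfl⟩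
    · have e : 20 * (a + σ) + 7 - (10 * (σ + 1 - (2 * L + q.length)) + (20 * q.length - 13)) =
          20 * (a + (2 * L + k)) + 10 := by omega
      rw [e, hk2]
      exact ⟨B _ 10 _ _ rfl (by omega) (by norm_num) rfl,
        B _ 11 _ _ rfl (by omega) (by norm_num) rfl⟩
  obtain ⟨b, hb, hb0, hb1, hb2⟩ := hR
  have hLz : L * z + L ≤ L * L := by
    calc L * z + L = L * (z + 1) := by ring
      _ ≤ L * L := Nat.mul_le_mul_left _ (by omega)
  have haL : L * L + L * (m + 1) = a := by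
    rw [ha, hA]
    ring
  have hm2 : L * (m + 2) = L * (m + 1) + L := by ring
  obtain ⟨w, hw⟩ : ∃ w, w = L * z := ⟨_, rfl⟩
  rw [← hw] at hLz b9
  obtain ⟨c, hc⟩ : ∃ c, c = L * (m + 1) := ⟨_, rfl⟩
  rw [← hc] at haL hm2
  obtain ⟨D, hD⟩ : ∃ D, D = L * L := ⟨_, rfl⟩
  rw [← hD] at hLz haL
  have hD9 : 3 * L ≤ D := by
    rw [hD]
    exact Nat.mul_le_mul_right _ hL
  have hcL : L ≤ c := by
    rw [hc]
    exact Nat.le_mul_of_pos_right _ (by omega)
  subst hn
  have t16 : tab L m δ (a - 2 - z) 16 = 20 * w + 10 := by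
    show (if aa L m ≤ a - 2 - z + 1 + L then 20 * (L * (aa L m - 2 - (a - 2 - z))) + 10
      else 1) = _
    rw [if_pos (by omega), ← ha, show a - 2 - (a - 2 - z) = z by omega, hw]
  have t11 : tab L m δ (a + x - w) 11 = 8 + 20 * y := by
    show 8 + 20 * δ ((a + x - w) % L) (L + 1 + m - (a + x - w) / L) = _
    have e : a + x - w = x + L * (L + 1 + m - z) := by
      have : L * (L + 1 + m - z) + L * z = L * (L + 1 + m) := by
        rw [← Nat.mul_add]
        congr 1
        omega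
      rw [ha, hA, hw]
      omega
    rw [e, Nat.add_mul_mod_self_left, Nat.mod_eq_of_lt hx, Nat.add_mul_div_left _ _ (by omega),
      Nat.div_eq_of_lt hx, Nat.zero_add, show L + 1 + m - (L + 1 + m - z) = z by omega, ← hnew]
  interval_cases r
  · rw [if_neg (by omega)]
    exact step_of (B (σ - 1) 19 _ (20 * (σ - 1) + 14) (by omega) (by omega) (by norm_num) rfl) (B (σ - 1) 18 _ (20 * (σ - 1) + 7) (by omega) (by omega) (by norm_num) rfl) (p1 := 20 * a + 6) (p2 := 20 * a + 13) (by omega) (by omega)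
      (T (a) 6 _ (4) rfl (by omega) (by omega) (by norm_num) rfl)
      (T (a) 13 _ (3) rfl (by omega) (by omega) (by norm_num) rfl)
      (by show 4 + 3 = 7; omega)
  · rw [if_neg (by omega)]
    exact step_of (B (σ) 0 _ (7) (by omega) (by omega) (by norm_num) rfl) (B (σ - 1) 19 _ (20 * (σ - 1) + 14) (by omega) (by omega) (by norm_num) rfl) (p1 := 20 * (a + (σ - 1)) + 14) (p2 := 20 * a + 7) (by omega) (by omega)
      (B (σ - 1) 14 _ (20) rfl (by omega) (by norm_num) rfl)
      (T (a) 7 _ (8) rfl (by omega) (by omega) (by norm_num) rfl)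
      (by show 20 + 8 = 28; omega)
  · rw [if_neg (by omega)]
    exact step_of (B (σ) 1 _ (28) (by omega) (by omega) (by norm_num) rfl) (B (σ) 0 _ (7) (by omega) (by omega) (by norm_num) rfl) (p1 := 20 * (a + (σ - 2)) + 14) (p2 := 20 * (a + (σ - 1)) + 15) (by omega) (by omega)
      (B (σ - 2) 14 _ (20) rfl (by omega) (by norm_num) rfl)
      (B (σ - 1) 15 _ (20 * (σ - 1) + 4) rfl (by omega) (by norm_num) rfl)
      (by show 20 + (20 * (σ - 1) + 4) = 20 * σ + 4; omega)
  · rw [if_neg (by omega)]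
    exact step_of (B (σ) 2 _ (20 * σ + 4) (by omega) (by omega) (by norm_num) rfl) (B (σ) 1 _ (28) (by omega) (by omega) (by norm_num) rfl) (p1 := 20 * (a - 1) + 19) (p2 := 20 * (a + (σ - 2)) + 15) (by omega) (by omega)
      (T (a - 1) 19 _ (36) rfl (by omega) (by omega) (by norm_num) rfl)
      (B (σ - 2) 15 _ (20 * (σ - 2) + 4) rfl (by omega) (by norm_num) rfl)
      (by show 36 + (20 * (σ - 2) + 4) = 20 * σ; omega)
  · rw [if_neg (by omega)]
    exact step_of (B (σ) 3 _ (20 * σ) (by omega) (by omega) (by norm_num) rfl) (B (σ) 2 _ (20 * σ + 4) (by omega) (by omega) (by norm_num) rfl) (p1 := 20 * a + 4) (p2 := 20 * a + 0) (by omega) (by omega)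
      (T (a) 4 _ (17) rfl (by omega) (by omega) (by norm_num) rfl)
      (T (a) 0 _ (3) rfl (by omega) (by omega) (by norm_num) rfl)
      (by show 17 + 3 = 20; omega)
  · rw [if_neg (by omega)]
    exact step_of (B (σ) 4 _ (20) (by omega) (by omega) (by norm_num) rfl) (B (σ) 3 _ (20 * σ) (by omega) (by omega) (by norm_num) rfl) (p1 := 20 * (a + (σ - 1)) + 5) (p2 := 20 * a + 5) (by omega) (by omega)
      (B (σ - 1) 5 _ (20 * (σ - 1) + 5) rfl (by omega) (by norm_num) rfl)
      (T (a) 5 _ (20) rfl (by omega) (by omega) (by norm_num) (t5 _ (by omega)))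
      (by show 20 * (σ - 1) + 5 + 20 = 20 * σ + 5; omega)
  · rw [if_neg (by omega)]
    exact step_of (B (σ) 5 _ (20 * σ + 5) (by omega) (by omega) (by norm_num) rfl) (B (σ) 4 _ (20) (by omega) (by omega) (by norm_num) rfl) (p1 := 20 * a + 1) (p2 := 20 * (a + (σ - 1)) + 6) (by omega) (by omega)
      (T (a) 1 _ (10) rfl (by omega) (by omega) (by norm_num) rfl)
      (B (σ - 1) 6 _ (10 * (σ - 1 + 1 - (2 * L + q.length)) + (20 * q.length - 13)) rfl (by omega) (by norm_num) (b6 _ (by omega)))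
      (by rw [b6 σ (by omega)]; omega)
  · rw [if_neg (by omega)]
    exact step_of (B σ 6 _ (10 * (σ + 1 - (2 * L + q.length)) + (20 * q.length - 13)) (by omega) (by omega) (by norm_num) (b6 _ (by omega))) (B (σ) 5 _ (20 * σ + 5) (by omega) (by omega) (by norm_num) rfl) (p1 := b) (p2 := 20 * a + 2) (by omega) (by omega)
      hb1
      (T (a) 2 _ (9) rfl (by omega) (by omega) (by norm_num) rfl)
      (by show 7 + 9 = 16; omega)
  · rw [if_neg (by omega)]
    exact step_of (B (σ) 7 _ (16) (by omega) (by omega) (by norm_num) rfl) (B σ 6 _ (10 * (σ + 1 - (2 * L + q.length)) + (20 * q.length - 13)) (by omega) (by omega) (by norm_num) (b6 _ (by omega))) (p1 := 20 * (a + (σ - 1)) + 12) (p2 := b + 1) (by omega) (by omega)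
      (B (σ - 1) 12 _ (20 * (σ - 1) + 25) rfl (by omega) (by norm_num) rfl)
      hb2
      (by rw [b8]; omega)
  · rw [if_neg (by omega)]
    exact step_of (B σ 8 _ _ (by omega) (by omega) (by norm_num) b8) (B (σ) 7 _ (16) (by omega) (by omega) (by norm_num) rfl) (p1 := 20 * (a - 2 - z) + 16) (p2 := 20 * (a + (σ - 1)) + 13) (by omega) (by omega)
      (T (a - 2 - z) 16 _ (20 * w + 10) rfl (by omega) (by omega) (by norm_num) t16)
      (B (σ - 1) 13 _ (20 * (σ - 1) + 10 - 20 * x) rfl (by omega) (by norm_num) (by rw [hxx]; rfl))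
      (by rw [b9]; omega)
  · rw [if_neg (by omega)]
    exact step_of (B σ 9 _ _ (by omega) (by omega) (by norm_num) b9) (B σ 8 _ _ (by omega) (by omega) (by norm_num) b8) (p1 := 20 * (a + x - w) + 10) (p2 := 20 * (a - 2 - z) + 17) (by omega) (by omega)
      (T (a + x - w) 10 _ 4 rfl (by omega) (by omega) (by norm_num) rfl)
      (T (a - 2 - z) 17 _ 3 rfl (by omega) (by omega) (by norm_num) rfl)
      (by show 4 + 3 = 7; omega)
  · rw [if_neg (by omega)]
    exact step_of (B (σ) 10 _ (7) (by omega) (by omega) (by norm_num) rfl) (B σ 9 _ _ (by omega) (by omega) (by norm_num) b9) (p1 := 20 * (a + σ) + 4) (p2 := 20 * (a + x - w) + 11) (by omega) (by omega)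
      (B (σ) 4 _ (20) rfl (by omega) (by norm_num) rfl)
      (T (a + x - w) 11 _ (8 + 20 * y) rfl (by omega) (by omega) (by norm_num) t11)
      (by show 20 + (8 + 20 * y) = 28 + 20 * YY L δ q σ; rw [← hyy]; omega)
  · rw [if_neg (by omega)]
    exact step_of (B σ 11 _ (28 + 20 * y) (by omega) (by omega) (by norm_num) (by rw [hyy]; rfl)) (B (σ) 10 _ (7) (by omega) (by omega) (by norm_num) rfl) (p1 := 20 * (a + (σ - 1 - y)) + 4) (p2 := 20 * (a + σ) + 5) (by omega) (by omega)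
      (B (σ - 1 - y) 4 _ (20) rfl (by omega) (by norm_num) rfl)
      (B (σ) 5 _ (20 * σ + 5) rfl (by omega) (by norm_num) rfl)
      (by show 20 + (20 * σ + 5) = 20 * σ + 25; omega)
  · rw [if_neg (by omega)]
    exact step_of (B (σ) 12 _ (20 * σ + 25) (by omega) (by omega) (by norm_num) rfl) (B σ 11 _ (28 + 20 * y) (by omega) (by omega) (by norm_num) (by rw [hyy]; rfl)) (p1 := 20 * (a - 1) + 8) (p2 := 20 * (a + (σ - 1 - y)) + 5) (by omega) (by omega)
      (T (a - 1) 8 _ (25) rfl (by omega) (by omega) (by norm_num) rfl)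
      (B (σ - 1 - y) 5 _ (20 * (σ - 1 - y) + 5) rfl (by omega) (by norm_num) rfl)
      (by show 25 + (20 * (σ - 1 - y) + 5) = 20 * σ + 10 - 20 * YY L δ q σ; rw [← hyy]; omega)
  · rw [if_neg (by omega)]
    exact step_of (B σ 13 _ (20 * σ + 10 - 20 * y) (by omega) (by omega) (by norm_num) (by rw [hyy]; rfl)) (B (σ) 12 _ (20 * σ + 25) (by omega) (by omega) (by norm_num) rfl) (p1 := 20 * (a + y) + 4) (p2 := 20 * (a - 1) + 9) (by omega) (by omega)
      (T (a + y) 4 _ 17 rfl (by omega) (by omega) (by norm_num) rfl)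
      (T (a - 1) 9 _ (3) rfl (by omega) (by omega) (by norm_num) rfl)
      (by show 17 + 3 = 20; omega)
  · by_cases h15 : y = L - 1
    · rw [if_pos ⟨rfl, h15⟩]
      exact step_of (B σ 14 _ 20 (by omega) (by omega) (by norm_num) rfl)
        (B σ 13 _ (20 * σ + 10 - 20 * y) (by omega) (by omega) (by norm_num) (by rw [hyy]; rfl))
        (p1 := 20 * (a + (σ - 1)) + 15) (p2 := 20 * (a + y) + 5) (by omega) (by omega)
        (B (σ - 1) 15 _ (20 * (σ - 1) + 4) rfl (by omega) (by norm_num) rfl)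
        (T (a + y) 5 _ (20 * a + 32) rfl (by omega) (by omega) (by norm_num) (by
          show (if a + y = aa L m + (L - 1) then 20 * aa L m + 32 else 20) = _
          rw [if_pos (by omega), ha]))
        (by omega)
    · rw [if_neg (by omega)]
      exact step_of (B σ 14 _ 20 (by omega) (by omega) (by norm_num) rfl)
        (B σ 13 _ (20 * σ + 10 - 20 * y) (by omega) (by omega) (by norm_num) (by rw [hyy]; rfl))
        (p1 := 20 * (a + (σ - 1)) + 15) (p2 := 20 * (a + y) + 5) (by omega) (by omega)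
        (B (σ - 1) 15 _ (20 * (σ - 1) + 4) rfl (by omega) (by norm_num) rfl)
        (T (a + y) 5 _ 20 rfl (by omega) (by omega) (by norm_num) (t5 _ (by omega)))
        (by show 20 * (σ - 1) + 4 + 20 = 20 * σ + 4; omega)
  · rw [if_neg (by omega)]
    exact step_of (B (σ) 15 _ (20 * σ + 4) (by omega) (by omega) (by norm_num) rfl) (B (σ) 14 _ (20) (by omega) (by omega) (by norm_num) rfl) (p1 := 20 * a + 12) (p2 := 20 * (a + (σ - 1)) + 16) (by omega) (by omega)
      (T (a) 12 _ (20) rfl (by omega) (by omega) (by norm_num) rfl)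
      (B (σ - 1) 16 _ (20 * (σ - 1) + 13) rfl (by omega) (by norm_num) rfl)
      (by show 20 + (20 * (σ - 1) + 13) = 20 * σ + 13; omega)
  · rw [if_neg (by omega)]
    exact step_of (B (σ) 16 _ (20 * σ + 13) (by omega) (by omega) (by norm_num) rfl) (B (σ) 15 _ (20 * σ + 4) (by omega) (by omega) (by norm_num) rfl) (p1 := 20 * a + 4) (p2 := 20 * a + 13) (by omega) (by omega)
      (T (a) 4 _ (17) rfl (by omega) (by omega) (by norm_num) rfl)
      (T (a) 13 _ (3) rfl (by omega) (by omega) (by norm_num) rfl)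
      (by show 17 + 3 = 20; omega)
  · rw [if_neg (by omega)]
    exact step_of (B (σ) 17 _ (20) (by omega) (by omega) (by norm_num) rfl) (B (σ) 16 _ (20 * σ + 13) (by omega) (by omega) (by norm_num) rfl) (p1 := 20 * (a + (σ - 1)) + 18) (p2 := 20 * a + 5) (by omega) (by omega)
      (B (σ - 1) 18 _ (20 * (σ - 1) + 7) rfl (by omega) (by norm_num) rfl)
      (T (a) 5 _ (20) rfl (by omega) (by omega) (by norm_num) (t5 _ (by omega)))
      (by show 20 * (σ - 1) + 7 + 20 = 20 * σ + 7; omega)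
  · rw [if_neg (by omega)]
    exact step_of (B (σ) 18 _ (20 * σ + 7) (by omega) (by omega) (by norm_num) rfl) (B (σ) 17 _ (20) (by omega) (by omega) (by norm_num) rfl) (p1 := 20 * a + 12) (p2 := 20 * (a + (σ - 1)) + 19) (by omega) (by omega)
      (T (a) 12 _ (20) rfl (by omega) (by omega) (by norm_num) rfl)
      (B (σ - 1) 19 _ (20 * (σ - 1) + 14) rfl (by omega) (by norm_num) rfl)
      (by show 20 + (20 * (σ - 1) + 14) = 20 * σ + 14; omega)

end

end Pool.Agent.Lib.HQ
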