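import Pool.Agent.Lib.HQ.Main

/-!
# The initial values are a computable function of the queue
-/

set_option autoImplicit false

namespace Pool.Agent.Lib.HQ

/-- the cell number `i` after the table -/
def hc (L : ℕ) (q : List ℕ) (i : ℕ) : ℕ :=
  let σ := L + i / 20
  let y := if σ < 2 * L then 0 else q.getD (σ - 2 * L) 0
  [7, 28, 20 * σ + 4, 20 * σ, 20, 20 * σ + 5,
    if σ + 1 < 2 * L + q.length then 1 else 20 * q.length - 13,
    16, 1, 1, 7, 28 + 20 * y, 20 * σ + 25, 20 * σ + 10 - 20 * y, 20, 20 * σ + 4, 20 * σ + 13, 20,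
    20 * σ + 7, 20 * σ + 14].getD (i % 20) 1

theorem hc_eq (L : ℕ) (δ : ℕ → ℕ → ℕ) (q : List ℕ) (i : ℕ) (hi : i < 20 * (L + q.length)) :
    hc L q i = blk L δ q (L + i / 20) (i % 20) := by
  obtain ⟨σ, hσ⟩ : ∃ σ, σ = L + i / 20 := ⟨_, rfl⟩
  have h1 : σ < 2 * L + q.length := by omega
  have hy : YY L δ q σ = if σ < 2 * L then 0 else q.getD (σ - 2 * L) 0 := by
    unfold YY
    split_ifs with h
    · rfl
    · exact W_lt _ _ _ (by omega)
  unfold hc
  rw [← hσ]
  obtain ⟨r, hr, hr2⟩ : ∃ r, r = i % 20 ∧ r < 20 := ⟨_, rfl, Nat.mod_lt _ (by norm_num)⟩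
  rw [← hr]
  simp only
  rw [← hy]
  rcases eq_or_ne r 6 with rfl | n6
  · show (if σ + 1 < 2 * L + q.length then 1 else 20 * q.length - 13) =
      (if σ + 1 < 2 * L + q.length then 1
      else 10 * (σ + 1 - (2 * L + q.length)) + (20 * q.length - 13))
    split_ifs
    · rfl
    · omega
  rcases eq_or_ne r 8 with rfl | n8
  · show 1 = (if σ < 2 * L + q.length then 1 else 20 * σ + 33 + 20 * ZZ L δ q σ)
    rw [if_pos h1]
  rcases eq_or_ne r 9 with rfl | n9
  · show 1 = (if σ < 2 * L + q.length then 1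
      else 20 * σ + 20 * (L * ZZ L δ q σ) - 20 * YY L δ q (σ - 1))
    rw [if_pos h1]
  interval_cases r <;> first | (exfalso; omega) | rfl

/-- the table without its exceptional entry -/
def T0 (L : ℕ) (δ : ℕ → ℕ → ℕ) : List ℕ :=
  (List.range (20 * (L * L))).map (fun i => tab L 0 δ (2 * L + i / 20) (i % 20))

/-- the entry number `i` of the table -/
def hT (L : ℕ) (δ : ℕ → ℕ → ℕ) (m i : ℕ) : ℕ :=
  if i = 20 * (L * L - 1) + 5 then 20 * aa L m + 32 else (T0 L δ).getD i 0

/-- the values after the given ones -/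
def tl (L : ℕ) (δ : ℕ → ℕ → ℕ) (m : ℕ) (q : List ℕ) : List ℕ :=
  (List.range (20 * (L * L))).map (hT L δ m) ++ (List.range (20 * (L + q.length))).map (hc L q)

theorem hT_eq (L m : ℕ) (hL : 3 ≤ L) (δ : ℕ → ℕ → ℕ) (i : ℕ) (hi : i < 20 * (L * L)) :
    hT L δ m i = tab L m δ (L * (m + 2) + i / 20) (i % 20) := by
  have e1 : aa L m = L * L + L + L * m := by unfold aa; ring
  have e2 : aa L 0 = L * L + L := by unfold aa; ring
  have e3 : L * (m + 2) = L * m + 2 * L := by ring
  have h9 : 3 * L ≤ L * L := Nat.mul_le_mul_right L hL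
  obtain ⟨s, hs⟩ : ∃ s, s = i / 20 := ⟨_, rfl⟩
  obtain ⟨r, hr⟩ : ∃ r, r = i % 20 := ⟨_, rfl⟩
  have hsr : i = 20 * s + r := by omega
  have hr20 : r < 20 := by omega
  have hsL : s < L * L := by omega
  have hT0 : (T0 L δ).getD i 0 = tab L 0 δ (2 * L + s) r := by
    unfold T0
    rw [List.getD_eq_getElem _ _ (by rw [List.length_map, List.length_range]; exact hi),
      List.getElem_map, List.getElem_range, ← hs, ← hr]
  unfold hT
  rw [hT0, ← hs, ← hr]
  by_cases hc : i = 20 * (L * L - 1) + 5
  · rw [if_pos hc]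
    have h5 : r = 5 := by omega
    have h6 : s = L * L - 1 := by omega
    rw [h5]
    show _ = (if L * (m + 2) + s = aa L m + (L - 1) then 20 * aa L m + 32 else 20)
    rw [if_pos (by omega)]
  · rw [if_neg hc]
    rcases eq_or_ne r 5 with rfl | n5
    · show (if 2 * L + s = aa L 0 + (L - 1) then 20 * aa L 0 + 32 else 20) =
        (if L * (m + 2) + s = aa L m + (L - 1) then 20 * aa L m + 32 else 20)
      rw [if_neg (by omega), if_neg (by omega)]
    rcases eq_or_ne r 11 with rfl | n11
    · show 8 + 20 * δ ((2 * L + s) % L) (L + 1 + 0 - (2 * L + s) / L) =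
        8 + 20 * δ ((L * (m + 2) + s) % L) (L + 1 + m - (L * (m + 2) + s) / L)
      have f1 : (2 * L + s) % L = s % L := by
        rw [show 2 * L + s = s + L * 2 by ring, Nat.add_mul_mod_self_left]
      have f2 : (L * (m + 2) + s) % L = s % L := by
        rw [show L * (m + 2) + s = s + L * (m + 2) by ring, Nat.add_mul_mod_self_left]
      have f3 : (2 * L + s) / L = s / L + 2 := by
        rw [show 2 * L + s = s + L * 2 by ring, Nat.add_mul_div_left _ _ (by omega)]
      have f4 : (L * (m + 2) + s) / L = s / L + (m + 2) := by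
        rw [show L * (m + 2) + s = s + L * (m + 2) by ring, Nat.add_mul_div_left _ _ (by omega)]
      rw [f1, f2, f3, f4]
      congr 3
      omega
    rcases eq_or_ne r 16 with rfl | n16
    · show (if aa L 0 ≤ 2 * L + s + 1 + L then 20 * (L * (aa L 0 - 2 - (2 * L + s))) + 10 else 1) =
        (if aa L m ≤ L * (m + 2) + s + 1 + L then
          20 * (L * (aa L m - 2 - (L * (m + 2) + s))) + 10 else 1)
      have f1 : aa L 0 - 2 - (2 * L + s) = aa L m - 2 - (L * (m + 2) + s) := by omega
      rw [f1]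
      by_cases h : aa L 0 ≤ 2 * L + s + 1 + L
      · rw [if_pos h, if_pos (by omega)]
      · rw [if_neg h, if_neg (by omega)]
    interval_cases r <;> first | (exfalso; omega) | rfl

theorem tl_length (L m : ℕ) (δ : ℕ → ℕ → ℕ) (q : List ℕ) :
    (tl L δ m q).length = 20 * (L * L) + 20 * (L + q.length) := by
  unfold tl
  rw [List.length_append, List.length_map, List.length_map, List.length_range, List.length_range]

theorem pre_length (U : ℕ → ℕ) (k : ℕ) : (pre U k).length = k := by
  unfold pre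
  rw [List.length_map, List.length_range]

theorem iniL_split (L m : ℕ) (hL : 3 ≤ L) (δ : ℕ → ℕ → ℕ) (U : ℕ → ℕ) (q : List ℕ) :
    iniL L m δ (pre U (20 * (L * (m + 2)) - 1)) q =
      pre U (20 * (L * (m + 2)) - 1) ++ tl L δ m q := by
  have ht : t0 L m q = aa L m + 2 * L + q.length := rfl
  have e1 : aa L m = L * L + L + L * m := by unfold aa; ring
  have e3 : L * (m + 2) = L * m + 2 * L := by ring
  have h9 : 3 * L ≤ L * L := Nat.mul_le_mul_right L hL
  obtain ⟨k, hk⟩ : ∃ k, k = 20 * (L * (m + 2)) - 1 := ⟨_, rfl⟩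
  rw [← hk]
  have hpl := pre_length U k
  have htl := tl_length L m δ q
  refine List.ext_getElem ?_ ?_
  · rw [iniL_length, List.length_append, hpl, htl]
    omega
  · intro n hn1 hn2
    rw [iniL_length] at hn1
    rw [iniL_get]
    unfold FF
    by_cases hn : n < k
    · rw [List.getElem_append_left (by omega), if_pos (by omega), Nat.add_sub_cancel,
        List.getD_eq_getElem _ _ (by omega)]
    · rw [List.getElem_append_right (by omega), if_neg (by omega)]
      unfold tl
      by_cases hn3 : n - k < 20 * (L * L)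
      · rw [List.getElem_append_left
          (by rw [List.length_map, List.length_range, hpl]; exact hn3), List.getElem_map,
          List.getElem_range, if_pos (by omega), hT_eq L m hL δ _ (by omega)]
        congr 1
        · omega
        · omega
      · rw [List.getElem_append_right
          (by rw [List.length_map, List.length_range, hpl]; omega), List.getElem_map,
          List.getElem_range, if_neg (by omega)]
        simp only [List.length_map, List.length_range, hpl]
        rw [hc_eq L δ q _ (by omega)]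
        congr 1
        · omega
        · omega

theorem hc_prim (L : ℕ) : Primrec₂ (hc L) := by
  have hi : Primrec fun x : List ℕ × ℕ => L + x.2 / 20 :=
    Primrec.nat_add.comp (Primrec.const _) (Primrec.nat_div.comp Primrec.snd (Primrec.const _))
  have hl : Primrec fun x : List ℕ × ℕ => x.1.length := Primrec.list_length.comp Primrec.fst
  have hy : Primrec fun x : List ℕ × ℕ =>
      if L + x.2 / 20 < 2 * L then 0 else x.1.getD (L + x.2 / 20 - 2 * L) 0 :=
    Primrec.ite (Primrec.nat_lt.comp hi (Primrec.const _)) (Primrec.const _)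
      ((Primrec.list_getD 0).comp Primrec.fst (Primrec.nat_sub.comp hi (Primrec.const _)))
  have hm : ∀ {f : List ℕ × ℕ → ℕ}, Primrec f → Primrec fun x => 20 * f x := fun hf =>
    Primrec.nat_mul.comp (Primrec.const _) hf
  have ha : ∀ {f : List ℕ × ℕ → ℕ} (c : ℕ), Primrec f → Primrec fun x => f x + c := fun c hf =>
    Primrec.nat_add.comp hf (Primrec.const _)
  have hk : ∀ c : ℕ, Primrec fun _ : List ℕ × ℕ => c := fun c => Primrec.const c
  have h6 : Primrec fun x : List ℕ × ℕ =>
      if L + x.2 / 20 + 1 < 2 * L + x.1.length then 1 else 20 * x.1.length - 13 :=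
    Primrec.ite (Primrec.nat_lt.comp (ha 1 hi) (Primrec.nat_add.comp (Primrec.const _) hl))
      (Primrec.const _) (Primrec.nat_sub.comp (hm hl) (Primrec.const _))
  have h11 : Primrec fun x : List ℕ × ℕ =>
      28 + 20 * (if L + x.2 / 20 < 2 * L then 0 else x.1.getD (L + x.2 / 20 - 2 * L) 0) :=
    Primrec.nat_add.comp (Primrec.const _) (hm hy)
  have h13 : Primrec fun x : List ℕ × ℕ => 20 * (L + x.2 / 20) + 10 -
      20 * (if L + x.2 / 20 < 2 * L then 0 else x.1.getD (L + x.2 / 20 - 2 * L) 0) :=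
    Primrec.nat_sub.comp (ha 10 (hm hi)) (hm hy)
  have cc : ∀ {f : List ℕ × ℕ → ℕ} {g : List ℕ × ℕ → List ℕ}, Primrec f → Primrec g →
      Primrec fun x => f x :: g x := fun hf hg => Primrec.list_cons.comp hf hg
  have hlist := cc (hk 7) (cc (hk 28) (cc (ha 4 (hm hi)) (cc (hm hi) (cc (hk 20) (cc (ha 5 (hm hi))
    (cc h6 (cc (hk 16) (cc (hk 1) (cc (hk 1) (cc (hk 7) (cc h11 (cc (ha 25 (hm hi)) (cc h13
    (cc (hk 20) (cc (ha 4 (hm hi)) (cc (ha 13 (hm hi)) (cc (hk 20) (cc (ha 7 (hm hi))
    (cc (ha 14 (hm hi)) (Primrec.const (α := List ℕ × ℕ) ([] : List ℕ)))))))))))))))))))))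
  exact ((Primrec.list_getD 1).comp hlist (Primrec.nat_mod.comp Primrec.snd (Primrec.const 20)))

theorem tl_prim (L : ℕ) (δ : ℕ → ℕ → ℕ) : Primrec₂ (tl L δ) := by
  have haa : Primrec fun x : (ℕ × List ℕ) × ℕ => aa L x.1.1 :=
    Primrec.nat_mul.comp (Primrec.const _) (Primrec.nat_add.comp (Primrec.const _)
      (Primrec.fst.comp Primrec.fst))
  have hTp : Primrec₂ fun (x : ℕ × List ℕ) (i : ℕ) => hT L δ x.1 i :=
    Primrec.ite (Primrec.eq.comp Primrec.snd (Primrec.const _))
      (Primrec.nat_add.comp (Primrec.nat_mul.comp (Primrec.const _) haa) (Primrec.const _))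
      ((Primrec.list_getD 0).comp (Primrec.const _) Primrec.snd)
  have hcp : Primrec₂ fun (x : ℕ × List ℕ) (i : ℕ) => hc L x.2 i :=
    (hc_prim L).comp (Primrec.snd.comp Primrec.fst) Primrec.snd
  exact Primrec.list_append.comp (Primrec.list_map (Primrec.const _) hTp)
    (Primrec.list_map (Primrec.list_range.comp (Primrec.nat_mul.comp (Primrec.const _)
      (Primrec.nat_add.comp (Primrec.const _) (Primrec.list_length.comp Primrec.snd)))) hcp)

end Pool.Agent.Lib.HQ
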