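import Pool.Agent.Lib.HQ.Stmt

/-!
# Hofstadter's recursion with arbitrary initial values

`f n = f (n - f (n - 1)) + f (n - f (n - 2))`. The initial values are the entries of a list.
The explicit function `FF` simulates a queue system: the letters are the numbers smaller than `L`
(`0` is a blank, `L - 1` the halting letter), `δ i j` is the letter written when the last letter
written is `i` and the letter read is `j`.
-/

set_option autoImplicit false

namespace Pool.Agent.Lib.HQ

/-! ### Letters -/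

/-- the letters: `q` followed by the letters computed by `δ` -/
def W (δ : ℕ → ℕ → ℕ) (q : List ℕ) (k : ℕ) : ℕ :=
  if k < q.length ∨ k = 0 then q.getD k 0
  else if (k - q.length) % 2 = 0 then δ (W δ q (k - 1)) (W δ q ((k - q.length) / 2))
  else δ (W δ q (k - 1)) 0
termination_by k
decreasing_by all_goals omega

/-! ### Blocks of 20 terms -/

/-- number of the block of the table in which the pointers end -/
def aa (L m : ℕ) : ℕ := L * (L + 1 + m)

/-- the cell number `r` of the block number `s` of the table -/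
def tab (L m : ℕ) (δ : ℕ → ℕ → ℕ) (s r : ℕ) : ℕ :=
  match r with
  | 0 => 3
  | 1 => 10
  | 2 => 9
  | 4 => 17
  | 5 => if s = aa L m + (L - 1) then 20 * aa L m + 32 else 20
  | 6 => 4
  | 7 => 8
  | 8 => 25
  | 9 => 3
  | 10 => 4
  | 11 => 8 + 20 * δ (s % L) (L + 1 + m - s / L)
  | 12 => 20
  | 13 => 3
  | 16 => if aa L m ≤ s + 1 + L then 20 * (L * (aa L m - 2 - s)) + 10 else 1
  | 17 => 3
  | 19 => 36
  | _ => 1

/-- the letter of the block number `aa + σ` -/
def YY (L : ℕ) (δ : ℕ → ℕ → ℕ) (q : List ℕ) (σ : ℕ) : ℕ :=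
  if σ < 2 * L then 0 else W δ q (σ - 2 * L)

/-- the letter read in the block number `aa + σ` -/
def ZZ (L : ℕ) (δ : ℕ → ℕ → ℕ) (q : List ℕ) (σ : ℕ) : ℕ :=
  if (σ - (2 * L + q.length)) % 2 = 0 then W δ q ((σ - (2 * L + q.length)) / 2) else 0

/-- the cell number `r` of the block number `aa + σ`, `σ ≥ L` -/
def blk (L : ℕ) (δ : ℕ → ℕ → ℕ) (q : List ℕ) (σ r : ℕ) : ℕ :=
  match r with
  | 0 => 7
  | 1 => 28
  | 2 => 20 * σ + 4
  | 3 => 20 * σ
  | 4 => 20
  | 5 => 20 * σ + 5
  | 6 => if σ + 1 < 2 * L + q.length then 1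
      else 10 * (σ + 1 - (2 * L + q.length)) + (20 * q.length - 13)
  | 7 => 16
  | 8 => if σ < 2 * L + q.length then 1 else 20 * σ + 33 + 20 * ZZ L δ q σ
  | 9 => if σ < 2 * L + q.length then 1
      else 20 * σ + 20 * (L * ZZ L δ q σ) - 20 * YY L δ q (σ - 1)
  | 10 => 7
  | 11 => 28 + 20 * YY L δ q σ
  | 12 => 20 * σ + 25
  | 13 => 20 * σ + 10 - 20 * YY L δ q σ
  | 14 => 20
  | 15 => 20 * σ + 4
  | 16 => 20 * σ + 13
  | 17 => 20
  | 18 => 20 * σ + 7
  | 19 => 20 * σ + 14
  | _ => 1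

/-- the explicit function -/
def FF (L m : ℕ) (δ : ℕ → ℕ → ℕ) (u q : List ℕ) (n : ℕ) : ℕ :=
  if n / 20 < L * (m + 2) then u.getD (n - 1) 1
  else if n / 20 < aa L m + L then tab L m δ (n / 20) (n % 20)
  else blk L δ q (n / 20 - aa L m) (n % 20)

/-- number of the first computed block -/
def t0 (L m : ℕ) (q : List ℕ) : ℕ := aa L m + 2 * L + q.length

/-- the initial values -/
def iniL (L m : ℕ) (δ : ℕ → ℕ → ℕ) (u q : List ℕ) : List ℕ :=
  (List.range (20 * t0 L m q - 1)).map (fun i => FF L m δ u q (i + 1))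

end Pool.Agent.Lib.HQ
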