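import Pool.Agent.Lib.HQ.RE

/-!
# The breakdown is recursively enumerable
-/

set_option autoImplicit false

namespace Pool.Agent.Lib.HQ

theorem near_iff (K N : ℕ) (x : ℕ × List ℕ) : Near K N x ↔
    ((2 ≤ x.1 ∧ K ≤ x.1) ∧ N * x.2.length ≤ x.1) ∧
    ∀ i ∈ List.range x.2.length, 1 ≤ x.2.getD i 0 ∧ x.2.getD i 0 ≤ x.1 + i + 1 := by
  constructor
  · intro h
    refine ⟨⟨⟨h.two, h.ge⟩, h.few⟩, ?_⟩
    intro i hi
    rw [List.mem_range] at hi
    rw [List.getD_eq_getElem x.2 0 hi]
    exact ⟨h.pos _ (List.getElem_mem hi), h.le i hi⟩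
  · rintro ⟨⟨⟨h1, h2⟩, h3⟩, h⟩
    refine ⟨h1, h2, h3, ?_, ?_⟩
    · intro y hy
      obtain ⟨i, hi, rfl⟩ := List.mem_iff_getElem.1 hy
      have h4 := (h i (List.mem_range.2 hi)).1
      rwa [List.getD_eq_getElem x.2 0 hi] at h4
    · intro i hi
      have h4 := (h i (List.mem_range.2 hi)).2
      rwa [List.getD_eq_getElem x.2 0 hi] at h4

theorem near_prim (K N : ℕ) : PrimrecPred (Near K N) := by
  have hx : Primrec fun p : ℕ × (ℕ × List ℕ) => p.2.1 := Primrec.fst.comp Primrec.snd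
  have hg : Primrec fun p : ℕ × (ℕ × List ℕ) => p.2.2.getD p.1 0 :=
    (Primrec.list_getD 0).comp (Primrec.snd.comp Primrec.snd) Primrec.fst
  have r : PrimrecPred fun p : ℕ × (ℕ × List ℕ) =>
      1 ≤ p.2.2.getD p.1 0 ∧ p.2.2.getD p.1 0 ≤ p.2.1 + p.1 + 1 :=
    (Primrec.nat_le.comp (Primrec.const 1) hg).and
      (Primrec.nat_le.comp hg (Primrec.succ.comp (Primrec.nat_add.comp hx Primrec.fst)))
  have r2 : PrimrecRel fun (i : ℕ) (x : ℕ × List ℕ) =>
      1 ≤ x.2.getD i 0 ∧ x.2.getD i 0 ≤ x.1 + i + 1 := r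
  have hlen : Primrec fun x : ℕ × List ℕ => x.2.length := Primrec.list_length.comp Primrec.snd
  have r3 : PrimrecPred fun x : ℕ × List ℕ => ∀ i ∈ List.range x.2.length,
      1 ≤ x.2.getD i 0 ∧ x.2.getD i 0 ≤ x.1 + i + 1 :=
    r2.forall_mem_list.comp (Primrec.list_range.comp hlen) Primrec.id
  exact ((((Primrec.nat_le.comp (Primrec.const 2) Primrec.fst).and
    (Primrec.nat_le.comp (Primrec.const K) Primrec.fst)).and
    (Primrec.nat_le.comp (Primrec.nat_mul.comp (Primrec.const N) hlen) Primrec.fst)).and r3).of_eq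
    fun x => (near_iff K N x).symm

theorem pre_comp {U : ℕ → ℕ} (hU : Computable U) : Computable (pre U) := by
  have h : Computable fun k : ℕ =>
      Nat.rec (motive := fun _ => List ℕ) ([] : List ℕ) (fun y IH => IH ++ [U y]) k := by
    have hh : Computable₂ fun (_ : ℕ) (y : ℕ × List ℕ) => y.2 ++ [U y.1] :=
      Computable.list_concat.comp (Computable.snd.comp Computable.snd)
        (hU.comp (Computable.fst.comp Computable.snd))
    exact Computable.nat_rec (f := fun k : ℕ => k) (g := fun _ : ℕ => ([] : List ℕ))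
      (h := fun (_ : ℕ) (y : ℕ × List ℕ) => y.2 ++ [U y.1]) Computable.id (Computable.const []) hh
  refine h.of_eq fun k => ?_
  unfold pre
  induction k with
  | zero => rfl
  | succ k ih =>
    rw [List.range_succ, List.map_append, ← ih]
    rfl

theorem near_list {U : ℕ → ℕ} (hpos : ∀ n, 1 ≤ U n) {K N : ℕ} {x : ℕ × List ℕ}
    (h : Near K N x) : 2 ≤ (pre U x.1 ++ x.2).length ∧ ∀ y ∈ pre U x.1 ++ x.2, 1 ≤ y := by
  refine ⟨?_, ?_⟩
  · rw [List.length_append]
    unfold pre
    rw [List.length_map, List.length_range]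
    have := h.two
    omega
  · intro y hy
    rcases List.mem_append.1 hy with h1 | h1
    · unfold pre at h1
      obtain ⟨i, -, rfl⟩ := List.mem_map.1 h1
      exact hpos i
    · exact h.pos y h1

theorem near_re {U : ℕ → ℕ} (hU : Computable U) (hpos : ∀ n, 1 ≤ U n) (K N : ℕ) :
    REPred fun x : ℕ × List ℕ => Near K N x ∧ ¬ WellDefined (pre U x.1 ++ x.2) := by
  classical
  have h1 : Primrec₂ run :=
    Primrec.nat_iterate Primrec.snd Primrec.fst (ext_prim.comp Primrec.snd).to₂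
  have hl : Computable fun x : ℕ × List ℕ => pre U x.1 ++ x.2 :=
    Computable.list_append.comp ((pre_comp hU).comp Computable.fst) Computable.snd
  have h0 : Computable fun y : (ℕ × List ℕ) × ℕ => decide (Near K N y.1) :=
    (near_prim K N).decide.to_comp.comp Computable.fst
  have hr : Computable fun y : (ℕ × List ℕ) × ℕ => okB (run (pre U y.1.1 ++ y.1.2) y.2) :=
    okB_prim.to_comp.comp (h1.to_comp.comp (hl.comp Computable.fst) Computable.snd)
  have h2 : Computable₂ fun (x : ℕ × List ℕ) (k : ℕ) =>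
      (decide (Near K N x) && !okB (run (pre U x.1 ++ x.2) k)) :=
    Primrec.and.to_comp.comp h0 (Primrec.not.to_comp.comp hr)
  have h3 : Partrec₂ fun (x : ℕ × List ℕ) (k : ℕ) =>
      (Part.some (decide (Near K N x) && !okB (run (pre U x.1 ++ x.2) k)) : Part Bool) :=
    h2.partrec₂
  have h4 := (Partrec.rfind h3).dom_re
  refine h4.of_eq fun x => ?_
  rw [Nat.rfind_dom]
  constructor
  · rintro ⟨k, hk, -⟩
    have hk2 : Near K N x ∧ okB (run (pre U x.1 ++ x.2) k) = false := by simpa using hk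
    have hl2 := near_list hpos hk2.1
    refine ⟨hk2.1, fun h => ?_⟩
    rw [wd_iff_ok _ hl2.1 hl2.2] at h
    rw [h k] at hk2
    exact absurd hk2.2 (by decide)
  · rintro ⟨ha, hk⟩
    have hl2 := near_list hpos ha
    rw [wd_iff_ok _ hl2.1 hl2.2] at hk
    push Not at hk
    obtain ⟨k, hk⟩ := hk
    refine ⟨k, ?_, fun _ => trivial⟩
    have : okB (run (pre U x.1 ++ x.2) k) = false := by simpa using hk
    simp [ha, this]

end Pool.Agent.Lib.HQ
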