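import Pool.Agent.Lib.HQ.Sim
import Pool.Agent.Lib.HQ.Block

/-!
# The letter system simulates the system (M)
-/

set_option autoImplicit false

namespace Pool.Agent.Lib.HQ

open P913

/-- the letters of the initial queue -/
def enc (q0 : List ℕ) : List ℕ := q0.map (· + 1)

/-- the values of the letters number `s, ..., l + 2 s - 1` -/
def seg (S : MSys) (q0 : List ℕ) (s : ℕ) : List ℕ :=
  (List.range (q0.length + s)).map (fun i => vl S.R (W (dl S) (enc q0) (s + i)))

variable {S : MSys} {q0 : List ℕ}

theorem enc_len : (enc q0).length = q0.length := by simp [enc]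

theorem seg_cons (h : 1 ≤ q0.length) (s : ℕ) : seg S q0 s = vl S.R (W (dl S) (enc q0) s) ::
    (List.range (q0.length + s - 1)).map (fun i => vl S.R (W (dl S) (enc q0) (s + 1 + i))) := by
  unfold seg
  obtain ⟨n, hn⟩ : ∃ n, q0.length + s = n + 1 := ⟨q0.length + s - 1, by omega⟩
  rw [hn, List.range_succ_eq_map, List.map_cons, List.map_map, Nat.add_sub_cancel, Nat.add_zero]
  congr 1
  refine List.map_congr_left (fun i _ => ?_)
  simp only [Function.comp]
  congr 2
  omega

theorem seg_last (h : 1 ≤ q0.length) (s : ℕ) :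
    (seg S q0 s).getLastD 0 = vl S.R (W (dl S) (enc q0) (q0.length + 2 * s - 1)) := by
  unfold seg
  obtain ⟨n, hn⟩ : ∃ n, q0.length + s = n + 1 := ⟨q0.length + s - 1, by omega⟩
  rw [hn, List.range_succ, List.map_append]
  simp only [List.map_cons, List.map_nil, List.getLastD_eq_getLast?, List.getLast?_append,
    List.getLast?_singleton, Option.some_or, Option.getD_some]
  congr 2
  omega

theorem seg_next (h : 1 ≤ q0.length) (s : ℕ) : seg S q0 (s + 1) =
    (List.range (q0.length + s - 1)).map (fun i => vl S.R (W (dl S) (enc q0) (s + 1 + i))) ++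
      [vl S.R (W (dl S) (enc q0) (q0.length + 2 * s)),
        vl S.R (W (dl S) (enc q0) (q0.length + 2 * s + 1))] := by
  unfold seg
  obtain ⟨n, hn⟩ : ∃ n, q0.length + s - 1 = n := ⟨_, rfl⟩
  have e : q0.length + (s + 1) = n + 1 + 1 := by omega
  rw [e, hn, List.range_succ, List.range_succ, List.map_append, List.map_append, List.append_assoc]
  congr 1
  simp only [List.map_cons, List.map_nil, List.cons_append, List.nil_append]
  have e1 : s + 1 + n = q0.length + 2 * s := by omega
  have e2 : s + 1 + (n + 1) = q0.length + 2 * s + 1 := by omega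
  rw [e1, e2]

theorem iter_succ (S : MSys) (q : List ℕ) (n : ℕ) (q' : List ℕ) (h : S.step (S.iter n q) = some q') :
    S.iter (n + 1) q = q' := by
  unfold MSys.iter at h ⊢
  rw [Function.iterate_succ_apply', h]
  rfl

/-- the invariant of the simulation -/
theorem sim_inv (I : List ℕ → Prop) (hI : S.Inv I) (hq : I q0) (s : ℕ)
    (hs : ∀ j < s, S.step (S.iter j q0) ≠ none) :
    S.iter s q0 = seg S q0 s ∧ I (S.iter s q0) ∧
      ∀ k < q0.length + 2 * s, 1 ≤ W (dl S) (enc q0) k ∧ W (dl S) (enc q0) k < nL S.R - 1 := by
  have h2 := hI.two q0 hq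
  have hlen := enc_len (q0 := q0)
  induction s with
  | zero =>
    have hv : ∀ k, ∀ hk : k < q0.length, W (dl S) (enc q0) k = q0[k] + 1 := by
      intro k hk
      rw [W_lt _ _ _ (by omega), List.getD_eq_getElem _ _ (by omega)]
      simp [enc]
    have hle : ∀ k, ∀ hk : k < q0.length, q0[k] ≤ S.R := fun k hk =>
      hI.le q0 hq _ (List.getElem_mem hk)
    refine ⟨?_, hq, ?_⟩
    · show q0 = seg S q0 0
      refine List.ext_getElem (by simp [seg]) (fun i h1 h3 => ?_)
      simp only [seg, List.getElem_map, List.getElem_range, Nat.zero_add]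
      rw [hv i h1, vl_plain _ _ (hle i h1)]
    · intro k hk
      rw [hv k (by omega)]
      have := hle k (by omega)
      have h3 := plain_lt S.R _ this
      omega
  | succ s ih =>
    obtain ⟨h3, h4, h5⟩ := ih (fun j hj => hs j (by omega))
    obtain ⟨q', hq'⟩ := Option.ne_none_iff_exists'.1 (hs s (by omega))
    have h6 := iter_succ S q0 s q' hq'
    have h7 := hI.step _ _ h4 hq'
    have h8 := hI.le _ h7
    rw [h3, seg_cons (by omega)] at hq'
    have hlast := seg_last (S := S) (q0 := q0) (by omega) s
    rw [seg_cons (by omega)] at hlast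
    unfold MSys.step at hq'
    simp only at hq'
    rw [hlast] at hq'
    obtain ⟨x, hx, hy0⟩ := Option.bind_eq_some_iff.1 hq'
    obtain ⟨y, hy, he⟩ := Option.map_eq_some_iff.1 hy0
    have hxR : x ≤ S.R := h8 x (by rw [← he]; simp)
    have hyR : y ≤ S.R := h8 y (by rw [← he]; simp)
    have hbR : vl S.R (W (dl S) (enc q0) s) ≤ S.R := by
      refine hI.le _ h4 _ ?_
      rw [h3, seg_cons (by omega)]
      simp
    have w1 : W (dl S) (enc q0) (q0.length + 2 * s) =
        pr S.R x (vl S.R (W (dl S) (enc q0) s)) := by
      rw [W_even _ _ (by omega) _ (by omega) (by omega), hlen,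
        show (q0.length + 2 * s - q0.length) / 2 = s by omega]
      exact dl_false_some S _ _ x (by have := (h5 s (by omega)).1; omega) hx hxR hbR
    have w2 : W (dl S) (enc q0) (q0.length + 2 * s + 1) = y + 1 := by
      rw [W_odd _ _ (by omega) _ (by omega) (by omega), Nat.add_sub_cancel, w1]
      refine dl_true_some S _ y ?_ hyR
      rw [vl_pr _ _ _ hbR, sn_pr _ _ _ hbR]
      exact hy
    refine ⟨?_, by rw [h6]; exact h7, ?_⟩
    · rw [h6, seg_next (by omega), w1, w2, vl_pr _ _ _ hbR, vl_plain _ _ hyR, he]
    · intro k hk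
      rcases Nat.lt_or_ge k (q0.length + 2 * s) with h | h
      · exact h5 k h
      · rcases Nat.lt_or_ge k (q0.length + 2 * s + 1) with h' | h'
        · have : k = q0.length + 2 * s := by omega
          rw [this, w1]
          have h9 := pr_lt S.R x _ hxR hbR
          have h10 : 1 ≤ pr S.R x (vl S.R (W (dl S) (enc q0) s)) := by
            unfold pr
            omega
          exact ⟨h10, h9⟩
        · have : k = q0.length + 2 * s + 1 := by omega
          rw [this, w2]
          have h3 := plain_lt S.R y hyR
          omega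

/-- the system halts exactly if the halting letter is written -/
theorem halts_iff_letter (I : List ℕ → Prop) (hI : S.Inv I) (hq : I q0) :
    S.Halts q0 ↔ ¬ ∀ k, (enc q0).length ≤ k → W (dl S) (enc q0) k ≠ nL S.R - 1 := by
  have h2 := hI.two q0 hq
  have hlen := enc_len (q0 := q0)
  constructor
  · intro hh hall
    classical
    obtain ⟨s, hs, hmin⟩ : ∃ s, S.step (S.iter s q0) = none ∧
        ∀ j < s, S.step (S.iter j q0) ≠ none :=
      ⟨Nat.find hh, Nat.find_spec hh, fun j hj => Nat.find_min hh hj⟩
    obtain ⟨h3, h4, h5⟩ := sim_inv I hI hq s hmin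
    have hbR : vl S.R (W (dl S) (enc q0) s) ≤ S.R := by
      refine hI.le _ h4 _ ?_
      rw [h3, seg_cons (by omega)]
      simp
    rw [h3, seg_cons (by omega)] at hs
    have hlast := seg_last (S := S) (q0 := q0) (by omega) s
    rw [seg_cons (by omega)] at hlast
    unfold MSys.step at hs
    simp only at hs
    rw [hlast] at hs
    have a1 := hall (q0.length + 2 * s) (by omega)
    have a2 := hall (q0.length + 2 * s + 1) (by omega)
    have w0 : W (dl S) (enc q0) (q0.length + 2 * s) =
        dl S (W (dl S) (enc q0) (q0.length + 2 * s - 1)) (W (dl S) (enc q0) s) := by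
      rw [W_even _ _ (by omega) _ (by omega) (by omega), hlen,
        show (q0.length + 2 * s - q0.length) / 2 = s by omega]
    rw [w0] at a1
    have hne : W (dl S) (enc q0) s ≠ 0 := by
      have := (h5 s (by omega)).1
      omega
    cases hx : S.F false (vl S.R (W (dl S) (enc q0) (q0.length + 2 * s - 1)))
        (vl S.R (W (dl S) (enc q0) s)) with
    | none => exact a1 (dl_false_none S _ _ hne hx)
    | some x =>
      by_cases hc : x ≤ S.R
      · rw [hx] at hs
        simp only [Option.bind_some, Option.map_eq_none_iff] at hs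
        have w1 : W (dl S) (enc q0) (q0.length + 2 * s) =
            pr S.R x (vl S.R (W (dl S) (enc q0) s)) := by
          rw [w0]
          exact dl_false_some S _ _ x hne hx hc hbR
        rw [W_odd _ _ (by omega) _ (by omega) (by omega), Nat.add_sub_cancel, w1] at a2
        refine a2 (dl_true_none S _ ?_)
        rw [vl_pr _ _ _ hbR, sn_pr _ _ _ hbR]
        exact hs
      · exact a1 (dl_false_bad S _ _ x hne hx hc)
  · intro hh
    by_contra hc
    apply hh
    intro k hk
    have hs : ∀ j < k, S.step (S.iter j q0) ≠ none := fun j _ hj => hc ⟨j, hj⟩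
    have := (sim_inv I hI hq k hs).2.2 k (by omega)
    omega

end Pool.Agent.Lib.HQ
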