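import Pool.Agent.Lib.HQ.Comp
import Pool.Agent.Lib.HQ.SimRun
import Pool.Agent.Lib.HQ.NearP
import Pool.Agent.Lib.P913.MFull

/-!
# The breakdown of Hofstadter's recursion is complete for recursively enumerable sets
-/

set_option autoImplicit false

namespace Pool.Agent.Lib.HQ

open P913

/-- the number `m` for the queue `q` -/
def mq (K N L : ℕ) (q : List ℕ) : ℕ := K + N * (20 * (L * L) + 20 * (L + q.length))

theorem near_tl {U : ℕ → ℕ} (hpos : ∀ n, 1 ≤ U n) (K N L : ℕ) (hL : 3 ≤ L) (δ : ℕ → ℕ → ℕ)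
    (hδ : ∀ i j, δ i j < L) (q : List ℕ) (hq : ∀ x ∈ q, x < L) (hq1 : 1 ≤ q.length) :
    Near K N (20 * (L * (mq K N L q + 2)) - 1, tl L δ (mq K N L q) q) := by
  obtain ⟨m, hm⟩ : ∃ m, m = mq K N L q := ⟨_, rfl⟩
  rw [← hm]
  have hm2 : m = K + N * (20 * (L * L) + 20 * (L + q.length)) := hm
  obtain ⟨k, hk⟩ : ∃ k, k = 20 * (L * (m + 2)) - 1 := ⟨_, rfl⟩
  rw [← hk]
  have hs := iniL_split L m hL δ U q
  rw [← hk] at hs
  have hpl := pre_length U k
  have e3 : m + 2 ≤ L * (m + 2) := Nat.le_mul_of_pos_left _ (by omega)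
  have hup : ∀ x ∈ pre U k, 1 ≤ x := by
    intro x hx
    unfold pre at hx
    obtain ⟨i, -, rfl⟩ := List.mem_map.1 hx
    exact hpos i
  have hget : ∀ i, ∀ h : i < (tl L δ m q).length,
      (tl L δ m q)[i] = FF L m δ (pre U k) q (k + i + 1) := by
    intro i h
    rw [← iniL_get (k + i) (by rw [hs, List.length_append, hpl]; omega)]
    have h2 : (iniL L m δ (pre U k) q)[k + i]'(by rw [hs, List.length_append, hpl]; omega) =
        (pre U k ++ tl L δ m q)[k + i]'(by rw [List.length_append, hpl]; omega) := by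
      simp only [hs]
    rw [h2, List.getElem_append_right (by omega)]
    congr 1
    omega
  refine ⟨?_, ?_, ?_, ?_, ?_⟩
  · show 2 ≤ k
    omega
  · show K ≤ k
    omega
  · show N * (tl L δ m q).length ≤ k
    rw [tl_length]
    omega
  · intro y hy
    obtain ⟨i, hi, rfl⟩ := List.mem_iff_getElem.1 hy
    show 1 ≤ (tl L δ m q)[i]
    rw [hget i hi]
    exact FF_pos hL hδ hq hq1 hup _
  · intro i hi
    show (tl L δ m q)[i] ≤ k + i + 1
    rw [hget i hi]
    exact FF_le hL hδ hq hq1 _ (by omega)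

theorem reduction {U : ℕ → ℕ} (hpos : ∀ n, 1 ≤ U n) (K N : ℕ) (p : ℕ → Prop) (hp : REPred p) :
    ∃ e : ℕ → ℕ × List ℕ, Computable e ∧
      ∀ n, Near K N (e n) ∧ (p n ↔ ¬ WellDefined (pre U (e n).1 ++ (e n).2)) := by
  obtain ⟨S, I, q, hI, hqc, hq⟩ := muniv (fun n => (Part.assert (p n) fun _ => Part.some ()).map
    fun _ => 0) (by
      have h : Partrec fun n => (Part.assert (p n) fun _ => Part.some ()).map fun _ => (0 : ℕ) :=
        Partrec.map hp ((Computable.const 0).comp Computable.fst).to₂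
      exact Partrec.nat_iff.1 h)
  have h3 := three_le S.R
  have hlet : ∀ n, ∀ x ∈ enc (q n), x < nL S.R := by
    intro n x hx
    unfold enc at hx
    obtain ⟨v, hv, rfl⟩ := List.mem_map.1 hx
    have := plain_lt S.R v (hI.le _ (hq n).1 v hv)
    omega
  have hlen : ∀ n, 1 ≤ (enc (q n)).length := by
    intro n
    rw [enc_len]
    have := hI.two _ (hq n).1
    omega
  refine ⟨fun n => (20 * (nL S.R * (mq K N (nL S.R) (enc (q n)) + 2)) - 1,
    tl (nL S.R) (dl S) (mq K N (nL S.R) (enc (q n))) (enc (q n))), ?_, ?_⟩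
  · have h4 : Primrec enc := Primrec.list_map Primrec.id
      (Primrec.nat_add.comp Primrec.snd (Primrec.const 1)).to₂
    have h5 : Primrec (mq K N (nL S.R)) := Primrec.nat_add.comp (Primrec.const _)
      (Primrec.nat_mul.comp (Primrec.const _) (Primrec.nat_add.comp (Primrec.const _)
        (Primrec.nat_mul.comp (Primrec.const _) (Primrec.nat_add.comp (Primrec.const _)
          Primrec.list_length))))
    have h6 : Primrec fun q : List ℕ => (20 * (nL S.R * (mq K N (nL S.R) (enc q) + 2)) - 1,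
        tl (nL S.R) (dl S) (mq K N (nL S.R) (enc q)) (enc q)) :=
      (Primrec.nat_sub.comp (Primrec.nat_mul.comp (Primrec.const _)
        (Primrec.nat_mul.comp (Primrec.const _)
          (Primrec.nat_add.comp (h5.comp h4) (Primrec.const _)))) (Primrec.const _)).pair
        ((tl_prim (nL S.R) (dl S)).comp (h5.comp h4) h4)
    exact h6.to_comp.comp hqc
  · intro n
    refine ⟨near_tl hpos K N _ h3 _ (dl_lt S) _ (hlet n) (hlen n), ?_⟩
    show p n ↔ ¬ WellDefined (pre U (20 * (nL S.R * (mq K N (nL S.R) (enc (q n)) + 2)) - 1) ++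
      tl (nL S.R) (dl S) (mq K N (nL S.R) (enc (q n))) (enc (q n)))
    rw [← iniL_split _ _ h3, wd_iff h3 (dl_lt S) (hlet n) (hlen n) (by
      intro x hx
      unfold pre at hx
      obtain ⟨i, -, rfl⟩ := List.mem_map.1 hx
      exact hpos i)]
    have h5 := halts_iff_letter (q0 := q n) I hI (hq n).1
    rw [← h5, (hq n).2]
    simp [Part.assert]

theorem hofstadter_complete (U : ℕ → ℕ) (hU : Computable U) (hpos : ∀ n, 1 ≤ U n) (K N : ℕ) :
    REPred (fun x : ℕ × List ℕ => Near K N x ∧ ¬ WellDefined (pre U x.1 ++ x.2)) ∧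
    (∀ p : ℕ → Prop, REPred p → ∃ e : ℕ → ℕ × List ℕ, Computable e ∧
      ∀ n, Near K N (e n) ∧ (p n ↔ ¬ WellDefined (pre U (e n).1 ++ (e n).2))) ∧
    ¬ REPred (fun x : ℕ × List ℕ => Near K N x ∧ WellDefined (pre U x.1 ++ x.2)) := by
  refine ⟨near_re hU hpos K N, reduction hpos K N, ?_⟩
  intro hP
  have h1 : REPred fun n : ℕ =>
      (Nat.Partrec.Code.eval (Denumerable.ofNat Nat.Partrec.Code n) 0).Dom := by
    have := ComputablePred.halting_problem_re 0
    exact this.comp (Computable.ofNat Nat.Partrec.Code)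
  obtain ⟨e, he, hen⟩ := reduction hpos K N _ h1
  have h2 : REPred fun c : Nat.Partrec.Code =>
      Near K N (e (Encodable.encode c)) ∧
        WellDefined (pre U (e (Encodable.encode c)).1 ++ (e (Encodable.encode c)).2) :=
    hP.comp (he.comp Computable.encode)
  refine ComputablePred.halting_problem_not_re 0 (h2.of_eq fun c => ?_)
  have h4 := hen (Encodable.encode c)
  rw [Denumerable.ofNat_encode] at h4
  constructor
  · intro h5 h6
    exact h4.2.1 h6 h5.2
  · intro h5
    exact ⟨h4.1, by_contra fun h6 => h5 (h4.2.2 h6)⟩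

end Pool.Agent.Lib.HQ
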