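import Pool.Agent.Lib.HQ.Block

/-!
# The recursion breaks down exactly if the halting letter is written
-/

set_option autoImplicit false

namespace Pool.Agent.Lib.HQ

section

variable {L m : ℕ} {δ : ℕ → ℕ → ℕ} {u q : List ℕ}

theorem aa_ge (hL : 3 ≤ L) : L * (m + 2) + L ≤ aa L m + 1 ∧ L * (m + 2) + 1 ≤ aa L m ∧
    2 * L ≤ L * (m + 2) ∧ m ≤ L * (m + 2) ∧ L * L + L * (m + 1) = aa L m := by
  have hA : aa L m = L * (L + 1 + m) := rfl
  refine ⟨?_, ?_, ?_, ?_, ?_⟩
  · rw [hA]; nlinarith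
  · rw [hA]; nlinarith
  · nlinarith
  · nlinarith
  · rw [hA]; ring

theorem tab_bd (hL : 3 ≤ L) (hδ : ∀ i j, δ i j < L) (s r : ℕ) (hs : L * (m + 2) ≤ s) (hr : r < 20) :
    1 ≤ tab L m δ s r ∧ tab L m δ s r ≤ 20 * s + r := by
  obtain ⟨h1, h2, h3, h4, h5⟩ := aa_ge (m := m) hL
  have hs6 : 6 ≤ s := by omega
  rcases eq_or_ne r 5 with rfl | n5
  · show 1 ≤ (if s = aa L m + (L - 1) then 20 * aa L m + 32 else 20) ∧
      (if s = aa L m + (L - 1) then 20 * aa L m + 32 else 20) ≤ _
    split_ifs <;> omega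
  rcases eq_or_ne r 11 with rfl | n11
  · show 1 ≤ 8 + 20 * δ (s % L) (L + 1 + m - s / L) ∧ 8 + 20 * δ (s % L) (L + 1 + m - s / L) ≤ _
    have := hδ (s % L) (L + 1 + m - s / L)
    omega
  rcases eq_or_ne r 16 with rfl | n16
  · show 1 ≤ (if aa L m ≤ s + 1 + L then 20 * (L * (aa L m - 2 - s)) + 10 else 1) ∧
      (if aa L m ≤ s + 1 + L then 20 * (L * (aa L m - 2 - s)) + 10 else 1) ≤ _
    split_ifs with h
    · have e1 : L * (aa L m - 2 - s) ≤ L * (L - 1) := Nat.mul_le_mul_left _ (by omega)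
      have e2 : L * (L - 1) + L = L * L := by
        obtain ⟨k, rfl⟩ : ∃ k, L = k + 1 := ⟨L - 1, by omega⟩
        rw [Nat.add_sub_cancel]
        ring
      have e3 : L ≤ L * (m + 1) := Nat.le_mul_of_pos_right _ (by omega)
      omega
    · omega
  interval_cases r <;> first | (exfalso; omega) | (simp only [tab]; omega)

theorem blk_bd (hL : 3 ≤ L) (hδ : ∀ i j, δ i j < L) (hq : ∀ x ∈ q, x < L) (hq1 : 1 ≤ q.length)
    (σ r : ℕ) (hσ : L ≤ σ) (hr : r < 20) :
    1 ≤ blk L δ q σ r ∧ blk L δ q σ r ≤ 20 * (aa L m + σ) + r := by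
  obtain ⟨h1, h2, h3, h4, h5⟩ := aa_ge (m := m) hL
  have hy := YY_bd (by omega : 1 ≤ L) δ hδ q hq σ
  have hx := YY_bd (by omega : 1 ≤ L) δ hδ q hq (σ - 1)
  have hz := ZZ_bd (by omega : 1 ≤ L) δ hδ q hq σ
  rcases eq_or_ne r 6 with rfl | n6
  · show 1 ≤ (if σ + 1 < 2 * L + q.length then 1
      else 10 * (σ + 1 - (2 * L + q.length)) + (20 * q.length - 13)) ∧ (if σ + 1 < 2 * L + q.length then 1
      else 10 * (σ + 1 - (2 * L + q.length)) + (20 * q.length - 13)) ≤ _
    split_ifs <;> omega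
  rcases eq_or_ne r 8 with rfl | n8
  · show 1 ≤ (if σ < 2 * L + q.length then 1 else 20 * σ + 33 + 20 * ZZ L δ q σ) ∧
      (if σ < 2 * L + q.length then 1 else 20 * σ + 33 + 20 * ZZ L δ q σ) ≤ _
    have : 2 * L ≤ aa L m := by omega
    split_ifs <;> omega
  rcases eq_or_ne r 9 with rfl | n9
  · show 1 ≤ (if σ < 2 * L + q.length then 1
      else 20 * σ + 20 * (L * ZZ L δ q σ) - 20 * YY L δ q (σ - 1)) ∧
      (if σ < 2 * L + q.length then 1
      else 20 * σ + 20 * (L * ZZ L δ q σ) - 20 * YY L δ q (σ - 1)) ≤ _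
    have e : L * ZZ L δ q σ ≤ L * L := Nat.mul_le_mul_left _ (by omega)
    split_ifs <;> omega
  rcases eq_or_ne r 11 with rfl | n11
  · show 1 ≤ 28 + 20 * YY L δ q σ ∧ 28 + 20 * YY L δ q σ ≤ _
    omega
  rcases eq_or_ne r 13 with rfl | n13
  · show 1 ≤ 20 * σ + 10 - 20 * YY L δ q σ ∧ 20 * σ + 10 - 20 * YY L δ q σ ≤ _
    omega
  interval_cases r <;> first | (exfalso; omega) | (simp only [blk]; omega)

theorem FF_pos (hL : 3 ≤ L) (hδ : ∀ i j, δ i j < L) (hq : ∀ x ∈ q, x < L) (hq1 : 1 ≤ q.length)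
    (hu : ∀ x ∈ u, 1 ≤ x) (n : ℕ) : 1 ≤ FF L m δ u q n := by
  unfold FF
  split_ifs with h1 h2
  · by_cases h : n - 1 < u.length
    · rw [List.getD_eq_getElem _ _ h]
      exact hu _ (List.getElem_mem h)
    · rw [List.getD_eq_default _ _ (by omega)]
  · exact (tab_bd hL hδ _ _ (by omega) (Nat.mod_lt _ (by norm_num))).1
  · exact (blk_bd (m := m) hL hδ hq hq1 _ _ (by omega) (Nat.mod_lt _ (by norm_num))).1

theorem FF_le (hL : 3 ≤ L) (hδ : ∀ i j, δ i j < L) (hq : ∀ x ∈ q, x < L) (hq1 : 1 ≤ q.length)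
    (n : ℕ) (hn : 20 * (L * (m + 2)) ≤ n) : FF L m δ u q n ≤ n := by
  unfold FF
  split_ifs with h1 h2
  · omega
  · have := (tab_bd (m := m) hL hδ (n / 20) (n % 20) (by omega) (Nat.mod_lt _ (by norm_num))).2
    omega
  · have := (blk_bd (m := m) hL hδ hq hq1 (n / 20 - aa L m) (n % 20) (by omega)
      (Nat.mod_lt _ (by norm_num))).2
    omega

theorem FF_rec (hL : 3 ≤ L) (hδ : ∀ i j, δ i j < L) (hq : ∀ x ∈ q, x < L) (hq1 : 1 ≤ q.length)
    (n : ℕ) (hn : 20 * t0 L m q ≤ n)
    (h15 : n % 20 = 15 → YY L δ q (n / 20 - aa L m) ≠ L - 1) :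
    FF L m δ u q (n - FF L m δ u q (n - 1)) + FF L m δ u q (n - FF L m δ u q (n - 2)) =
      FF L m δ u q n := by
  unfold t0 at hn
  have h := rhs_blk (u := u) (m := m) hL hδ hq hq1 (n / 20 - aa L m) (n % 20) (by omega)
    (Nat.mod_lt _ (by norm_num)) n (by omega)
  rw [if_neg (fun hc => h15 hc.1 hc.2)] at h
  rw [h]
  have e := FF_blk (L := L) (m := m) (δ := δ) (u := u) (q := q) (n / 20 - aa L m) (n % 20) (by omega)
    (Nat.mod_lt _ (by norm_num))
  rw [← e]
  congr 1
  omega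

theorem iniL_length : (iniL L m δ u q).length = 20 * t0 L m q - 1 := by
  unfold iniL
  rw [List.length_map, List.length_range]

theorem iniL_get (i : ℕ) (h : i < (iniL L m δ u q).length) :
    (iniL L m δ u q)[i] = FF L m δ u q (i + 1) := by
  simp [iniL]

/-- The recursion with these initial values is well-defined exactly if the halting letter is never
written. -/
theorem wd_iff (hL : 3 ≤ L) (hδ : ∀ i j, δ i j < L) (hq : ∀ x ∈ q, x < L) (hq1 : 1 ≤ q.length)
    (hu : ∀ x ∈ u, 1 ≤ x) :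
    WellDefined (iniL L m δ u q) ↔ ∀ k, q.length ≤ k → W δ q k ≠ L - 1 := by
  obtain ⟨h1, h2, h3, h4, h5⟩ := aa_ge (m := m) hL
  have ht : t0 L m q = aa L m + 2 * L + q.length := rfl
  have hlen := iniL_length (L := L) (m := m) (δ := δ) (u := u) (q := q)
  have hYW : ∀ σ, 2 * L ≤ σ → YY L δ q σ = W δ q (σ - 2 * L) := by
    intro σ h
    unfold YY
    rw [if_neg (by omega)]
  constructor
  · rintro ⟨f, hf⟩
    by_contra hc
    push Not at hc
    obtain ⟨k, ⟨hk1, hk2⟩, hmin⟩ : ∃ k, (q.length ≤ k ∧ W δ q k = L - 1) ∧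
        ∀ j < k, ¬ (q.length ≤ j ∧ W δ q j = L - 1) := by
      classical
      exact ⟨Nat.find hc, Nat.find_spec hc, fun j hj => Nat.find_min hc hj⟩
    have key : ∀ n, 1 ≤ n → n < 20 * (aa L m + (2 * L + k)) + 15 → f n = FF L m δ u q n := by
      intro n
      induction n using Nat.strong_induction_on with
      | _ n ih =>
        intro hn1 hn2
        by_cases hn3 : n < 20 * t0 L m q
        · have := hf.ini (n - 1) (by omega)
          rw [iniL_get, show n - 1 + 1 = n by omega] at this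
          exact this
        · have e0 := hf.eqn n (by omega)
          have l1 := hf.lt1 n (by omega)
          have l2 := hf.lt2 n (by omega)
          have p1 := hf.pos (n - 1) (by omega)
          have p2 := hf.pos (n - 2) (by omega)
          have e1 := ih (n - 1) (by omega) (by omega) (by omega)
          have e2 := ih (n - 2) (by omega) (by omega) (by omega)
          have e3 := ih (n - f (n - 1)) (by omega) (by omega) (by omega)
          have e4 := ih (n - f (n - 2)) (by omega) (by omega) (by omega)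
          rw [e0, e3, e4, e1, e2]
          refine FF_rec hL hδ hq hq1 n (by omega) ?_
          intro h15
          rw [hYW _ (by omega)]
          intro hbad
          exact hmin (n / 20 - aa L m - 2 * L) (by omega) ⟨by omega, hbad⟩
    obtain ⟨N, hN⟩ : ∃ N, N = 20 * (aa L m + (2 * L + k)) + 15 := ⟨_, rfl⟩
    have e0 := hf.eqn N (by omega)
    have l1 := hf.lt1 N (by omega)
    have l2 := hf.lt2 N (by omega)
    have p1 := hf.pos (N - 1) (by omega)
    have p2 := hf.pos (N - 2) (by omega)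
    have e1 := key (N - 1) (by omega) (by omega)
    have e2 := key (N - 2) (by omega) (by omega)
    have e3 := key (N - f (N - 1)) (by omega) (by omega)
    have e4 := key (N - f (N - 2)) (by omega) (by omega)
    rw [e3, e4, e1, e2] at e0
    have h := rhs_blk (u := u) (m := m) hL hδ hq hq1 (2 * L + k) 15 (by omega) (by norm_num) N hN
    rw [if_pos ⟨rfl, by rw [hYW _ (by omega), Nat.add_sub_cancel_left]; exact hk2⟩] at h
    rw [h] at e0
    have := hf.lt1 (N + 1) (by omega)
    rw [Nat.add_sub_cancel] at this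
    omega
  · intro hall
    refine ⟨FF L m δ u q, ?_, ?_, ?_, ?_, ?_⟩
    · intro n _
      exact FF_pos hL hδ hq hq1 hu n
    · intro i hi
      exact (iniL_get i hi).symm
    · intro n hn
      have := FF_le (L := L) (m := m) (u := u) hL hδ hq hq1 (n - 1) (by omega)
      omega
    · intro n hn
      have := FF_le (L := L) (m := m) (u := u) hL hδ hq hq1 (n - 2) (by omega)
      omega
    · intro n hn
      refine (FF_rec hL hδ hq hq1 n (by omega) ?_).symm
      intro _
      rw [hYW _ (by omega)]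
      exact hall _ (by omega)

end

end Pool.Agent.Lib.HQ
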