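import Pool.Agent.Lib.HQ.Defs

/-!
# The breakdown is recursively enumerable
-/

set_option autoImplicit false

namespace Pool.Agent.Lib.HQ

/-- the next value exists -/
def okB (l : List ℕ) : Bool :=
  decide (l.getD (l.length - 1) 0 ≤ l.length ∧ l.getD (l.length - 2) 0 ≤ l.length)

/-- the next value -/
def nxt (l : List ℕ) : ℕ :=
  l.getD (l.length - l.getD (l.length - 1) 0) 0 + l.getD (l.length - l.getD (l.length - 2) 0) 0

/-- append a value -/
def ext (l : List ℕ) : List ℕ := l ++ [nxt l]

/-- the list after `k` steps -/
def run (l : List ℕ) (k : ℕ) : List ℕ := ext^[k] l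

theorem run_succ (l : List ℕ) (k : ℕ) : run l (k + 1) = ext (run l k) :=
  Function.iterate_succ_apply' _ _ _

theorem run_len (l : List ℕ) (k : ℕ) : (run l k).length = l.length + k := by
  induction k with
  | zero => rfl
  | succ k ih => rw [run_succ, ext, List.length_append, ih]; rfl

theorem run_get (l : List ℕ) (k i : ℕ) (h : i < l.length + k) :
    (run l (k + 1)).getD i 0 = (run l k).getD i 0 := by
  rw [run_succ, ext, List.getD_append _ _ _ _ (by rw [run_len]; exact h)]

theorem run_get_le (l : List ℕ) (k j i : ℕ) (hkj : k ≤ j) (h : i < l.length + k) :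
    (run l j).getD i 0 = (run l k).getD i 0 := by
  induction j, hkj using Nat.le_induction with
  | base => rfl
  | succ j hj ih => rw [run_get l j i (by omega), ih]

theorem run_new (l : List ℕ) (k : ℕ) : (run l (k + 1)).getD (l.length + k) 0 = nxt (run l k) := by
  rw [run_succ, ext, List.getD_append_right _ _ _ _ (by rw [run_len]), run_len, Nat.sub_self]
  rfl

/-- the value number `n` of the computed sequence -/
def rv (l : List ℕ) (n : ℕ) : ℕ := (run l n).getD (n - 1) 0

theorem rv_eq (l : List ℕ) (n k : ℕ) (h1 : 1 ≤ n) (h2 : n ≤ l.length + k) :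
    (run l k).getD (n - 1) 0 = rv l n := by
  unfold rv
  rcases Nat.le_total k n with h | h
  · exact (run_get_le l k n (n - 1) h (by omega)).symm
  · exact run_get_le l n k (n - 1) h (by omega)

theorem ok_iff (l : List ℕ) (h2 : 2 ≤ l.length) (k : ℕ) : okB (run l k) = true ↔
    rv l (l.length + k) ≤ l.length + k ∧ rv l (l.length + k - 1) ≤ l.length + k := by
  unfold okB
  rw [decide_eq_true_eq, run_len, rv_eq l (l.length + k) k (by omega) le_rfl,
    show l.length + k - 2 = l.length + k - 1 - 1 by omega,
    rv_eq l (l.length + k - 1) k (by omega) (by omega)]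

theorem solves_rv (l : List ℕ) (h2 : 2 ≤ l.length) (hl : ∀ x ∈ l, 1 ≤ x)
    (hok : ∀ k, okB (run l k) = true) : Solves l (rv l) := by
  have hini : ∀ i, ∀ h : i < l.length, rv l (i + 1) = l[i] := by
    intro i h
    rw [← rv_eq l (i + 1) 0 (by omega) (by omega), Nat.add_sub_cancel]
    exact List.getD_eq_getElem _ _ h
  have hlt1 : ∀ n, l.length < n → rv l (n - 1) < n := by
    intro n hn
    have := ((ok_iff l h2 (n - 1 - l.length)).1 (hok _)).1
    rw [show l.length + (n - 1 - l.length) = n - 1 by omega] at this
    omega
  have hlt2 : ∀ n, l.length < n → rv l (n - 2) < n := by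
    intro n hn
    have := ((ok_iff l h2 (n - 1 - l.length)).1 (hok _)).2
    rw [show l.length + (n - 1 - l.length) = n - 1 by omega,
      show n - 1 - 1 = n - 2 by omega] at this
    omega
  have hpos : ∀ n, 1 ≤ n → (∀ m, 1 ≤ m → m < n → 1 ≤ rv l m) →
      l.length < n → rv l n = rv l (n - rv l (n - 1)) + rv l (n - rv l (n - 2)) := by
    intro n hn1 ih hn
    obtain ⟨k, hk⟩ : ∃ k, n = l.length + k + 1 := ⟨n - 1 - l.length, by omega⟩
    have a1 := hlt1 n hn
    have a2 := hlt2 n hn
    have b1 := ih (n - 1) (by omega) (by omega)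
    have b2 := ih (n - 2) (by omega) (by omega)
    have e := run_new l k
    have e2 := rv_eq l n (k + 1) (by omega) (by omega)
    rw [show n - 1 = l.length + k by omega, e] at e2
    rw [← e2]
    unfold nxt
    rw [run_len, rv_eq l (l.length + k) k (by omega) le_rfl,
      show l.length + k - 2 = l.length + k - 1 - 1 by omega,
      rv_eq l (l.length + k - 1) k (by omega) (by omega),
      show l.length + k = n - 1 by omega, show n - 1 - 1 = n - 2 by omega,
      show n - 1 - rv l (n - 1) = n - rv l (n - 1) - 1 by omega,
      show n - 1 - rv l (n - 2) = n - rv l (n - 2) - 1 by omega,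
      rv_eq l (n - rv l (n - 1)) k (by omega) (by omega),
      rv_eq l (n - rv l (n - 2)) k (by omega) (by omega)]
  have hp : ∀ n, 1 ≤ n → 1 ≤ rv l n := by
    intro n
    induction n using Nat.strong_induction_on with
    | _ n ih =>
      intro hn1
      by_cases hn : n ≤ l.length
      · have := hini (n - 1) (by omega)
        rw [show n - 1 + 1 = n by omega] at this
        rw [this]
        exact hl _ (List.getElem_mem _)
      · rw [hpos n hn1 (fun m h3 h4 => ih m h4 h3) (by omega)]
        have a1 := hlt1 n (by omega)
        have a2 := hlt2 n (by omega)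
        have b1 := ih (n - 1) (by omega) (by omega)
        have := ih (n - rv l (n - 1)) (by omega) (by omega)
        omega
  exact ⟨hp, hini, hlt1, hlt2, fun n hn => hpos n (by omega) (fun m h3 _ => hp m h3) hn⟩

theorem ok_of_solves (l : List ℕ) (h2 : 2 ≤ l.length) (f : ℕ → ℕ) (hf : Solves l f) (k : ℕ) :
    okB (run l k) = true ∧ ∀ i, 1 ≤ i → i ≤ l.length + k → (run l k).getD (i - 1) 0 = f i := by
  have hval : ∀ k, (∀ i, 1 ≤ i → i ≤ l.length + k → (run l k).getD (i - 1) 0 = f i) →
      okB (run l k) = true := by
    intro k h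
    unfold okB
    rw [decide_eq_true_eq, run_len, h (l.length + k) (by omega) le_rfl,
      show l.length + k - 2 = l.length + k - 1 - 1 by omega,
      h (l.length + k - 1) (by omega) (by omega)]
    have a1 := hf.lt1 (l.length + k + 1) (by omega)
    have a2 := hf.lt2 (l.length + k + 1) (by omega)
    rw [Nat.add_sub_cancel] at a1
    rw [show l.length + k + 1 - 2 = l.length + k - 1 by omega] at a2
    omega
  have hall : ∀ k, ∀ i, 1 ≤ i → i ≤ l.length + k → (run l k).getD (i - 1) 0 = f i := by
    intro k
    induction k with
    | zero =>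
      intro i h3 h4
      have := hf.ini (i - 1) (by omega)
      rw [show i - 1 + 1 = i by omega] at this
      rw [this]
      have h6 : i - 1 < l.length := by omega
      exact List.getD_eq_getElem l 0 h6
    | succ k ih =>
      intro i h3 h4
      by_cases h5 : i ≤ l.length + k
      · rw [run_get l k (i - 1) (by omega)]
        exact ih i h3 h5
      · have hi : i = l.length + k + 1 := by omega
        rw [hi, Nat.add_sub_cancel, run_new]
        have hok := hval k ih
        have a1 := hf.lt1 (l.length + k + 1) (by omega)
        have a2 := hf.lt2 (l.length + k + 1) (by omega)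
        have b1 := hf.pos (l.length + k) (by omega)
        have b2 := hf.pos (l.length + k - 1) (by omega)
        have e := hf.eqn (l.length + k + 1) (by omega)
        rw [Nat.add_sub_cancel] at a1 e
        rw [show l.length + k + 1 - 2 = l.length + k - 1 by omega] at a2 e
        rw [e]
        unfold nxt
        rw [run_len, ih (l.length + k) (by omega) le_rfl,
          show l.length + k - 2 = l.length + k - 1 - 1 by omega,
          ih (l.length + k - 1) (by omega) (by omega),
          show l.length + k - f (l.length + k) = l.length + k + 1 - f (l.length + k) - 1 by omega,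
          show l.length + k - f (l.length + k - 1) = l.length + k + 1 - f (l.length + k - 1) - 1
            by omega,
          ih _ (by omega) (by omega), ih _ (by omega) (by omega)]
  exact ⟨hval k (hall k), hall k⟩

theorem wd_iff_ok (l : List ℕ) (h2 : 2 ≤ l.length) (hl : ∀ x ∈ l, 1 ≤ x) :
    WellDefined l ↔ ∀ k, okB (run l k) = true := by
  constructor
  · rintro ⟨f, hf⟩ k
    exact (ok_of_solves l h2 f hf k).1
  · intro h
    exact ⟨_, solves_rv l h2 hl h⟩

theorem okB_prim : Primrec okB := by
  have hlen : Primrec fun l : List ℕ => l.length := Primrec.list_length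
  have h1 : Primrec fun l : List ℕ => l.getD (l.length - 1) 0 :=
    (Primrec.list_getD 0).comp Primrec.id (Primrec.nat_sub.comp hlen (Primrec.const 1))
  have h2 : Primrec fun l : List ℕ => l.getD (l.length - 2) 0 :=
    (Primrec.list_getD 0).comp Primrec.id (Primrec.nat_sub.comp hlen (Primrec.const 2))
  have h3 : PrimrecPred fun l : List ℕ =>
      l.getD (l.length - 1) 0 ≤ l.length ∧ l.getD (l.length - 2) 0 ≤ l.length :=
    (Primrec.nat_le.comp h1 hlen).and (Primrec.nat_le.comp h2 hlen)
  exact h3.decide

theorem ext_prim : Primrec ext := by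
  have hlen : Primrec fun l : List ℕ => l.length := Primrec.list_length
  have h1 : Primrec fun l : List ℕ => l.getD (l.length - 1) 0 :=
    (Primrec.list_getD 0).comp Primrec.id (Primrec.nat_sub.comp hlen (Primrec.const 1))
  have h2 : Primrec fun l : List ℕ => l.getD (l.length - 2) 0 :=
    (Primrec.list_getD 0).comp Primrec.id (Primrec.nat_sub.comp hlen (Primrec.const 2))
  have h3 : Primrec nxt := Primrec.nat_add.comp
    ((Primrec.list_getD 0).comp Primrec.id (Primrec.nat_sub.comp hlen h1))
    ((Primrec.list_getD 0).comp Primrec.id (Primrec.nat_sub.comp hlen h2))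
  exact Primrec.list_append.comp Primrec.id (Primrec.list_cons.comp h3 (Primrec.const []))

theorem re_break : REPred fun l : List ℕ => ∃ k, okB (run l k) = false := by
  have h1 : Primrec₂ run :=
    Primrec.nat_iterate Primrec.snd Primrec.fst (ext_prim.comp Primrec.snd).to₂
  have h2 : Primrec₂ fun (l : List ℕ) (k : ℕ) => !okB (run l k) :=
    Primrec.not.comp (okB_prim.comp h1)
  have h3 : Partrec₂ fun (l : List ℕ) (k : ℕ) => (Part.some (!okB (run l k)) : Part Bool) :=
    h2.to_comp.partrec
  have h4 := (Partrec.rfind h3).dom_re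
  refine h4.of_eq fun l => ?_
  rw [Nat.rfind_dom]
  constructor
  · rintro ⟨k, hk, -⟩
    refine ⟨k, ?_⟩
    simpa using hk
  · rintro ⟨k, hk⟩
    exact ⟨k, by simpa using hk, fun _ => trivial⟩

end Pool.Agent.Lib.HQ
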