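import Pool.Agent.Lib.HQ.Defs
import Pool.Agent.Lib.P913.MDef

/-!
# The systems (M) as letter systems

Letters: `0` blank, `v + 1` (`v ≤ R`) plain, `1 + r + x r + b` (`x, b ≤ R`, `r = R + 1`) a pair, then the
halting letter.
-/

set_option autoImplicit false

namespace Pool.Agent.Lib.HQ

open P913

/-- number of letters -/
def nL (R : ℕ) : ℕ := (R + 1) * (R + 1) + (R + 1) + 2

/-- value of a letter -/
def vl (R c : ℕ) : ℕ := if c ≤ R + 1 then c - 1 else (c - 1 - (R + 1)) / (R + 1)

/-- second component of a pair -/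
def sn (R c : ℕ) : ℕ := (c - 1 - (R + 1)) % (R + 1)

/-- the pair -/
def pr (R x b : ℕ) : ℕ := 1 + (R + 1) + (R + 1) * x + b

/-- the rule -/
def dl (S : MSys) (i j : ℕ) : ℕ :=
  if j = 0 then
    match S.F true (vl S.R i) (sn S.R i) with
    | some y => if y ≤ S.R then y + 1 else nL S.R - 1
    | none => nL S.R - 1
  else
    match S.F false (vl S.R i) (vl S.R j) with
    | some x => if x ≤ S.R ∧ vl S.R j ≤ S.R then pr S.R x (vl S.R j) else nL S.R - 1
    | none => nL S.R - 1

theorem pr_lt (R x b : ℕ) (hx : x ≤ R) (hb : b ≤ R) : pr R x b < nL R - 1 := by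
  unfold pr nL
  have : (R + 1) * x ≤ (R + 1) * R := Nat.mul_le_mul_left _ hx
  have e : (R + 1) * (R + 1) = (R + 1) * R + (R + 1) := by ring
  omega

theorem vl_pr (R x b : ℕ) (hb : b ≤ R) : vl R (pr R x b) = x := by
  unfold vl pr
  rw [if_neg (by omega)]
  have e : 1 + (R + 1) + (R + 1) * x + b - 1 - (R + 1) = b + (R + 1) * x := by omega
  rw [e, Nat.add_mul_div_left _ _ (by omega), Nat.div_eq_of_lt (by omega), Nat.zero_add]

theorem sn_pr (R x b : ℕ) (hb : b ≤ R) : sn R (pr R x b) = b := by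
  unfold sn pr
  have e : 1 + (R + 1) + (R + 1) * x + b - 1 - (R + 1) = b + (R + 1) * x := by omega
  rw [e, Nat.add_mul_mod_self_left, Nat.mod_eq_of_lt (by omega)]

theorem vl_plain (R v : ℕ) (hv : v ≤ R) : vl R (v + 1) = v := by
  unfold vl
  rw [if_pos (by omega), Nat.add_sub_cancel]

theorem three_le (R : ℕ) : 3 ≤ nL R := by
  unfold nL
  omega

theorem dl_lt (S : MSys) (i j : ℕ) : dl S i j < nL S.R := by
  have h3 := three_le S.R
  have hb : S.R + 1 < nL S.R := by
    unfold nL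
    nlinarith
  unfold dl
  split_ifs with h
  · split
    · split_ifs <;> omega
    · omega
  · split
    · split_ifs with h2
      · have := pr_lt S.R _ _ h2.1 h2.2
        omega
      · omega
    · omega

theorem plain_lt (R v : ℕ) (hv : v ≤ R) : v + 1 < nL R - 1 := by
  unfold nL
  omega

theorem dl_true_some (S : MSys) (i y : ℕ) (h : S.F true (vl S.R i) (sn S.R i) = some y)
    (hy : y ≤ S.R) : dl S i 0 = y + 1 := by
  unfold dl
  rw [if_pos rfl, h]
  simp only
  rw [if_pos hy]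

theorem dl_true_none (S : MSys) (i : ℕ) (h : S.F true (vl S.R i) (sn S.R i) = none) :
    dl S i 0 = nL S.R - 1 := by
  unfold dl
  rw [if_pos rfl, h]

theorem dl_false_some (S : MSys) (i j x : ℕ) (hj : j ≠ 0)
    (h : S.F false (vl S.R i) (vl S.R j) = some x) (hx : x ≤ S.R) (hj2 : vl S.R j ≤ S.R) :
    dl S i j = pr S.R x (vl S.R j) := by
  unfold dl
  rw [if_neg hj, h]
  simp only
  rw [if_pos ⟨hx, hj2⟩]

theorem dl_false_bad (S : MSys) (i j x : ℕ) (hj : j ≠ 0)
    (h : S.F false (vl S.R i) (vl S.R j) = some x) (hx : ¬ x ≤ S.R) :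
    dl S i j = nL S.R - 1 := by
  unfold dl
  rw [if_neg hj, h]
  simp only
  rw [if_neg (fun hc => hx hc.1)]

theorem dl_false_none (S : MSys) (i j : ℕ) (hj : j ≠ 0)
    (h : S.F false (vl S.R i) (vl S.R j) = none) : dl S i j = nL S.R - 1 := by
  unfold dl
  rw [if_neg hj, h]

end Pool.Agent.Lib.HQ
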