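import Mathlib

/-!
# Hofstadter's recursion with given initial values: definitions

`f n = f (n - f (n - 1)) + f (n - f (n - 2))`. The initial values `f 1, f 2, ...` are the entries
of a list.
-/

set_option autoImplicit false

namespace Pool.Agent.Lib.HQ

/-- `f` maps positive integers to positive integers, has the initial values
`f 1 = l[0], f 2 = l[1], ...` and satisfies Hofstadter's recursion from then on; both arguments
are positive and smaller than `n`. -/
structure Solves (l : List ℕ) (f : ℕ → ℕ) : Prop where
  pos : ∀ n, 1 ≤ n → 1 ≤ f n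
  ini : ∀ i, ∀ h : i < l.length, f (i + 1) = l[i]
  lt1 : ∀ n, l.length < n → f (n - 1) < n
  lt2 : ∀ n, l.length < n → f (n - 2) < n
  eqn : ∀ n, l.length < n → f n = f (n - f (n - 1)) + f (n - f (n - 2))

/-- the recursion with the initial values `l` never breaks down -/
def WellDefined (l : List ℕ) : Prop := ∃ f : ℕ → ℕ, Solves l f

/-- the list `U 0, U 1, ..., U (k - 1)` -/
def pre (U : ℕ → ℕ) (k : ℕ) : List ℕ := (List.range k).map U

/-- `x = (k, t)` with `k ≥ 2` and `k ≥ K`, and `t` is a list of at most `k / N` positive integers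
such that the entry number `i = 0, 1, ...` of `t`, which will be the value `f (k + i + 1)`, is at
most `k + i + 1` (no condition on the length of `t` if `N = 0`). -/
structure Near (K N : ℕ) (x : ℕ × List ℕ) : Prop where
  two : 2 ≤ x.1
  ge : K ≤ x.1
  few : N * x.2.length ≤ x.1
  pos : ∀ y ∈ x.2, 1 ≤ y
  le : ∀ i, ∀ h : i < x.2.length, x.2[i] ≤ x.1 + i + 1

end Pool.Agent.Lib.HQ
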